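import Pool.Agent.Q55.Det.Tens

/-!
# Cramer's rule for correspondences
-/

open CategoryTheory AlgebraicGeometry

universe u v

namespace Pool.Agent.Q55.Det

open Module
open Pool.Agent.H914 Pool.Agent.H914.VarClass Pool.Agent.H914.VarClass.Obj
  Pool.Agent.H914.WeilCohomology Pool.Agent.Y133.Half

section Mat

variable {K : Type*} [Field K] {n : ℕ}

/-- The sum of the signed products with one column replaced. -/
lemma sum_sign_col (G : Matrix (Fin (n + 1)) (Fin (n + 1)) K) (τ : Equiv.Perm (Fin (n + 1)))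
    (m : Fin (n + 1)) :
    ∑ σ : Equiv.Perm (Fin (n + 1)), ((Equiv.Perm.sign σ : ℤ) : K) *
      ((∏ j : Fin n, G (σ j.castSucc) (τ j.castSucc)) * G (σ (Fin.last n)) m) =
      if τ (Fin.last n) = m then ((Equiv.Perm.sign τ : ℤ) : K) * G.det else 0 := by
  let g : Fin (n + 1) → Fin (n + 1) := Fin.snoc (α := fun _ => Fin (n + 1))
    (fun j : Fin n => τ j.castSucc) m
  have hg1 : ∀ j : Fin n, g j.castSucc = τ j.castSucc := fun j =>
    Fin.snoc_castSucc (α := fun _ => Fin (n + 1)) _ _ _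
  have hg2 : g (Fin.last n) = m := Fin.snoc_last (α := fun _ => Fin (n + 1)) _ _
  have h1 : ∑ σ : Equiv.Perm (Fin (n + 1)), ((Equiv.Perm.sign σ : ℤ) : K) *
      ((∏ j : Fin n, G (σ j.castSucc) (τ j.castSucc)) * G (σ (Fin.last n)) m) =
      (G.submatrix id g).det := by
    rw [Matrix.det_apply]
    refine Finset.sum_congr rfl fun σ _ => ?_
    rw [Fin.prod_univ_castSucc, Units.smul_def, ← Int.cast_smul_eq_zsmul K, smul_eq_mul]
    simp only [Matrix.submatrix_apply, id_eq, hg1, hg2]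
  rw [h1]
  split_ifs with h
  · have h2 : g = τ := by
      funext i
      refine Fin.lastCases ?_ (fun j => ?_) i
      · rw [hg2, h]
      · rw [hg1]
    rw [h2, Matrix.det_permute']
  · obtain ⟨i, hi⟩ := τ.surjective m
    have hil : i ≠ Fin.last n := fun h' => h (by rw [← h', hi])
    obtain ⟨j, rfl⟩ : ∃ j : Fin n, i = j.castSucc :=
      ⟨i.castPred hil, (Fin.castSucc_castPred i hil).symm⟩
    refine Matrix.det_zero_of_column_eq hil fun k => ?_
    rw [Matrix.submatrix_apply, Matrix.submatrix_apply, hg1, hg2, hi]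

end Mat

variable {k : Type u} [Field k] {𝒱 : VarClass k} {ops : CycleOps 𝒱}
  {W : WeilCohomology.{u, v} ops} {X Y Z : 𝒱.Obj}

/-- The morphism `(y, x, x') ↦ ((y, x), (y, x'))`. -/
noncomputable def iota (Y X : 𝒱.Obj) : Y.prod (X.prod X) ⟶ (Y.prod X).prod (Y.prod X) :=
  Obj.lift (Obj.lift (fst _ _) (snd _ _ ≫ fst X X)) (Obj.lift (fst _ _) (snd _ _ ≫ snd X X))

lemma map_iota {a b : ℕ} (A B : W.H Y) (p q : W.H X) (hp : p ∈ PH W X a) (hB : B ∈ PH W Y b) :
    W.map (iota Y X) (xp W (xp W A p) (xp W B q)) =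
      (-1 : W.K) ^ (a * b) • xp W (A * B) (xp W p q) := by
  have e1 : iota Y X ≫ fst _ _ = Obj.lift (fst _ _) (snd _ _ ≫ fst X X) := Obj.lift_fst _ _
  have e2 : iota Y X ≫ snd _ _ = Obj.lift (fst _ _) (snd _ _ ≫ snd X X) := Obj.lift_snd _ _
  simp only [xp, map_mul (W.map (iota Y X)), map_mul (W.map (fst (Y.prod X) (Y.prod X))),
    map_mul (W.map (snd (Y.prod X) (Y.prod X))), ← W.map_comp, ← Category.assoc, e1, e2,
    Obj.lift_fst, Obj.lift_snd, map_mul (W.map (fst Y (X.prod X))),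
    map_mul (W.map (snd Y (X.prod X)))]
  rw [W.map_comp, W.map_comp]
  have h1 : W.map (snd Y (X.prod X)) (W.map (fst X X) p) * W.map (fst Y (X.prod X)) B =
      (-1 : W.K) ^ (a * b) • (W.map (fst Y (X.prod X)) B *
        W.map (snd Y (X.prod X)) (W.map (fst X X) p)) :=
    PH.comm (PH.map _ (PH.map _ hp)) (PH.map _ hB)
  rw [mul_assoc, ← mul_assoc (W.map (snd Y (X.prod X)) (W.map (fst X X) p)), h1]
  simp only [mul_assoc, smul_mul_assoc, mul_smul_comm]

lemma push_iota (U C : W.H Y) (D : W.H (X.prod X)) :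
    W.push (snd Y (X.prod X)) (W.map (fst Y (X.prod X)) U * xp W C D) = W.tr Y (U * C) • D := by
  rw [xp, ← mul_assoc, ← map_mul (W.map (fst Y (X.prod X))), push_snd]

/-- The Gram matrix of the form `tr (u x y)`. -/
noncomputable def gram (W : WeilCohomology.{u, v} ops) {X : 𝒱.Obj} (u : W.H X) {n : ℕ}
    (e : Fin (n + 1) → W.H X) : Matrix (Fin (n + 1)) (Fin (n + 1)) W.K :=
  fun k l => W.tr X (u * e k * e l)

/-- The coefficient of the contraction. -/
noncomputable def ccoef {K : Type*} [Field K] {n : ℕ} (G : Matrix (Fin (n + 1)) (Fin (n + 1)) K)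
    (σ τ : Equiv.Perm (Fin (n + 1))) : K :=
  ((Equiv.Perm.sign σ : ℤ) : K) * ((Equiv.Perm.sign τ : ℤ) : K) *
    ∏ j : Fin n, G (σ j.castSucc) (τ j.castSucc)

lemma xp_sum_sum {ι κ : Type*} (s : Finset ι) (t : Finset κ) (f : ι → W.K) (g : κ → W.K)
    (a : ι → W.H X) (b : κ → W.H Y) :
    xp W (∑ i ∈ s, f i • a i) (∑ j ∈ t, g j • b j) =
      ∑ i ∈ s, ∑ j ∈ t, (f i * g j) • xp W (a i) (b j) := by
  rw [xp, map_sum, map_sum, Finset.sum_mul_sum]
  refine Finset.sum_congr rfl fun i _ => Finset.sum_congr rfl fun j _ => ?_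
  rw [map_smul, map_smul, smul_mul_smul_comm]
  rfl

/-- **Contraction of the square of the determinant.** -/
theorem contract (S : Sys W) {a q n : ℕ} {e : Fin (n + 1) → W.H X} (he : ∀ j, e j ∈ W.gr X a)
    {u : W.H X} (hu : u ∈ W.gr X (2 * q)) (huS : u ∈ S.C X) (hd : detSq W n e ∈ S.C (dblPw X n)) :
    ∃ (c : W.H (X.prod X)) (s : W.K), c ∈ S.C (X.prod X) ∧ s ≠ 0 ∧ c = s •
      ∑ σ : Equiv.Perm (Fin (n + 1)), ∑ τ : Equiv.Perm (Fin (n + 1)),
        ccoef (gram W u e) σ τ • xp W (e (σ (Fin.last n))) (e (τ (Fin.last n))) := by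
  cases n with
  | zero =>
    refine ⟨detSq W 0 e, 1, hd, one_ne_zero, ?_⟩
    rw [one_smul]
    have h1 : wedge W 0 e = ∑ σ : Equiv.Perm (Fin 1), ((Equiv.Perm.sign σ : ℤ) : W.K) •
        e (σ (Fin.last 0)) := rfl
    have h2 : detSq W 0 e = xp W (∑ σ : Equiv.Perm (Fin 1), ((Equiv.Perm.sign σ : ℤ) : W.K) •
        e (σ (Fin.last 0))) (∑ σ : Equiv.Perm (Fin 1), ((Equiv.Perm.sign σ : ℤ) : W.K) •
        e (σ (Fin.last 0))) := rfl
    rw [h2, xp_sum_sum]
    refine Finset.sum_congr rfl fun σ _ => Finset.sum_congr rfl fun τ _ => ?_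
    rw [ccoef, Fin.prod_univ_zero, mul_one]
  | succ m =>
    obtain ⟨s, hs, hpair⟩ := pair_tens X W (2 * q + a) a m
    have h0 : detSq W (m + 1) e = xp W (X := (pw X m).prod X) (Y := (pw X m).prod X)
        (∑ σ : Equiv.Perm (Fin (m + 2)), ((Equiv.Perm.sign σ : ℤ) : W.K) •
          xp W (tens W m fun j => e (σ j.castSucc)) (e (σ (Fin.last (m + 1)))))
        (∑ τ : Equiv.Perm (Fin (m + 2)), ((Equiv.Perm.sign τ : ℤ) : W.K) •
          xp W (tens W m fun j => e (τ j.castSucc)) (e (τ (Fin.last (m + 1))))) := rfl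
    let U : W.H (pw X m) := tens W m fun _ => u
    refine ⟨W.push (snd (pw X m) (X.prod X)) (W.map (fst (pw X m) (X.prod X)) U *
      W.map (iota (pw X m) X) (detSq W (m + 1) e)), (-1) ^ (a * ((m + 1) * a)) * s,
      S.push _ (S.mul (S.map _ (tens_alg S m fun _ => huS)) (S.map _ hd)),
      mul_ne_zero (pow_ne_zero _ (neg_ne_zero.2 one_ne_zero)) hs, ?_⟩
    rw [h0, xp_sum_sum, map_sum, Finset.mul_sum, map_sum, Finset.smul_sum]
    refine Finset.sum_congr rfl fun σ _ => ?_
    rw [map_sum, Finset.mul_sum, map_sum, Finset.smul_sum]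
    refine Finset.sum_congr rfl fun τ _ => ?_
    rw [map_smul, map_iota _ _ _ _ (PH.of (he _)) (PH.of (tens_gr fun j => he _)), mul_smul_comm,
      mul_smul_comm, map_smul, map_smul, push_iota, ← mul_assoc U]
    have h1 : U * (tens W m fun j => e (σ j.castSucc)) =
        tens W m fun j => u * e (σ j.castSucc) := tens_mul hu m _
    rw [h1, hpair _ _ (fun j => W.mul_mem hu (he _)) (fun j => he _), smul_smul, smul_smul,
      smul_smul, ccoef]
    congr 1
    simp only [gram]
    ring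

/-- The operator given by the contraction of the square of the determinant. -/
theorem corr_contract {a n q : ℕ} {e : Fin (n + 1) → W.H X} (he : ∀ j, e j ∈ W.gr X a)
    {u : W.H X} (hu : u ∈ W.gr X (2 * q)) (hG : (gram W u e).det ≠ 0) {c : W.H (X.prod X)}
    {s : W.K} (hs : s ≠ 0) (hc : c = s •
      ∑ σ : Equiv.Perm (Fin (n + 1)), ∑ τ : Equiv.Perm (Fin (n + 1)),
        ccoef (gram W u e) σ τ • xp W (e (σ (Fin.last n))) (e (τ (Fin.last n)))) :
    (∀ m, ∃ κ : W.K, κ ≠ 0 ∧ W.corr c (u * e m) = κ • e m) ∧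
      ∀ d, ∀ x ∈ W.gr X d, (∀ j, W.tr X (e j * x) = 0) → W.corr c x = 0 := by
  have h1 : ∀ d, ∀ x ∈ W.gr X d, W.corr c x = s • ∑ σ : Equiv.Perm (Fin (n + 1)),
      ∑ τ : Equiv.Perm (Fin (n + 1)), (ccoef (gram W u e) σ τ * ((-1) ^ (a * d) *
        W.tr X (e (σ (Fin.last n)) * x))) • e (τ (Fin.last n)) := by
    intro d x hx
    have h2 : W.corr c x = corrL W X X c x := rfl
    rw [h2, hc, map_smul, LinearMap.smul_apply, map_sum, LinearMap.sum_apply]
    congr 1
    refine Finset.sum_congr rfl fun σ _ => ?_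
    rw [map_sum, LinearMap.sum_apply]
    refine Finset.sum_congr rfl fun τ _ => ?_
    rw [map_smul, LinearMap.smul_apply]
    have h3 : corrL W X X (xp W (e (σ (Fin.last n))) (e (τ (Fin.last n)))) x =
        W.corr (xp W (e (σ (Fin.last n))) (e (τ (Fin.last n)))) x := rfl
    rw [h3, corr_xp _ (PH.of (he _)) (PH.of hx), smul_smul]
  constructor
  · intro m
    set N : ℕ := (Finset.univ.filter fun τ : Equiv.Perm (Fin (n + 1)) =>
      τ (Fin.last n) = m).card with hN
    have hN0 : N ≠ 0 := by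
      rw [hN, Finset.card_ne_zero]
      exact ⟨Equiv.swap (Fin.last n) m, Finset.mem_filter.2 ⟨Finset.mem_univ _,
        Equiv.swap_apply_left _ _⟩⟩
    refine ⟨s * ((-1) ^ (a * (2 * q + a)) * ((gram W u e).det * N)), ?_, ?_⟩
    · refine mul_ne_zero hs (mul_ne_zero (pow_ne_zero _ (neg_ne_zero.2 one_ne_zero))
        (mul_ne_zero hG ?_))
      exact_mod_cast hN0
    · rw [h1 _ _ (W.mul_mem hu (he m)), Finset.sum_comm, mul_smul]
      congr 1
      have h4 : ∀ τ : Equiv.Perm (Fin (n + 1)), ∑ σ : Equiv.Perm (Fin (n + 1)),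
          (ccoef (gram W u e) σ τ * ((-1) ^ (a * (2 * q + a)) *
            W.tr X (e (σ (Fin.last n)) * (u * e m)))) • e (τ (Fin.last n)) =
          if τ (Fin.last n) = m then ((-1) ^ (a * (2 * q + a)) * (gram W u e).det) • e m
            else 0 := by
        intro τ
        rw [← Finset.sum_smul]
        have h5 : ∑ σ : Equiv.Perm (Fin (n + 1)), ccoef (gram W u e) σ τ *
            ((-1) ^ (a * (2 * q + a)) * W.tr X (e (σ (Fin.last n)) * (u * e m))) =
            ((-1) ^ (a * (2 * q + a)) * ((Equiv.Perm.sign τ : ℤ) : W.K)) *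
            ∑ σ : Equiv.Perm (Fin (n + 1)), ((Equiv.Perm.sign σ : ℤ) : W.K) *
              ((∏ j : Fin n, gram W u e (σ j.castSucc) (τ j.castSucc)) *
                gram W u e (σ (Fin.last n)) m) := by
          rw [Finset.mul_sum]
          refine Finset.sum_congr rfl fun σ _ => ?_
          have h6 : W.tr X (e (σ (Fin.last n)) * (u * e m)) =
              gram W u e (σ (Fin.last n)) m := by
            rw [gram, W.even_comm hu (e (σ (Fin.last n))), mul_assoc]
          rw [h6, ccoef]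
          ring
        rw [h5, sum_sign_col]
        split_ifs with h
        · rw [h]
          congr 1
          have h7 : ((Equiv.Perm.sign τ : ℤ) : W.K) * ((Equiv.Perm.sign τ : ℤ) : W.K) = 1 := by
            rcases Int.units_eq_one_or (Equiv.Perm.sign τ) with h | h <;> rw [h] <;> norm_num
          calc (-1) ^ (a * (2 * q + a)) * ((Equiv.Perm.sign τ : ℤ) : W.K) *
                (((Equiv.Perm.sign τ : ℤ) : W.K) * (gram W u e).det)
              = (-1) ^ (a * (2 * q + a)) * (((Equiv.Perm.sign τ : ℤ) : W.K) *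
                ((Equiv.Perm.sign τ : ℤ) : W.K)) * (gram W u e).det := by ring
            _ = _ := by rw [h7, mul_one]
        · rw [mul_zero, zero_smul]
      rw [Finset.sum_congr rfl fun τ _ => h4 τ, ← Finset.sum_filter, Finset.sum_const, ← hN,
        ← Nat.cast_smul_eq_nsmul W.K, smul_smul]
      congr 1
      ring
  · intro d x hx h
    rw [h1 d x hx, Finset.sum_eq_zero, smul_zero]
    intro σ _
    refine Finset.sum_eq_zero fun τ _ => ?_
    rw [h, mul_zero, mul_zero, zero_smul]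

end Pool.Agent.Q55.Det
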