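import Pool.Agent.Q55.Det.Tens

/-!
# The determinant class from a correspondence
-/

open CategoryTheory AlgebraicGeometry

universe u v

namespace Pool.Agent.Q55.Det

open Module
open Pool.Agent.H914 Pool.Agent.H914.VarClass Pool.Agent.H914.VarClass.Obj
  Pool.Agent.H914.WeilCohomology Pool.Agent.Y133.Half

variable {k : Type u} [Field k] {𝒱 : VarClass k} {ops : CycleOps 𝒱}
  {W : WeilCohomology.{u, v} ops} {X Y Z : 𝒱.Obj}

/-- The image of the determinant under a linear map. -/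
lemma wedge_lin {n : ℕ} {M : Type*} [AddCommGroup M] [Module W.K M] (e : Basis (Fin (n + 1)) W.K M)
    (φ : M →ₗ[W.K] W.H X) (x : Fin (n + 1) → M) :
    wedge W n (fun j => φ (x j)) = e.det x • wedge W n (fun j => φ (e j)) := by
  let g : M [⋀^Fin (n + 1)]→ₗ[W.K] W.H (pw X n) := (wedgeA W X n).compLinearMap φ
  have h : g = (LinearMap.toSpanSingleton W.K _ (g e)).compAlternatingMap e.det := by
    apply e.ext_alternating
    intro v hv
    obtain ⟨σ, rfl⟩ : ∃ σ : Equiv.Perm (Fin (n + 1)), v = σ :=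
      ⟨Equiv.ofBijective v (Finite.injective_iff_bijective.1 hv), rfl⟩
    have h1 : (fun i => e (σ i)) = (e : Fin (n + 1) → M) ∘ σ := rfl
    rw [h1, AlternatingMap.map_perm, LinearMap.compAlternatingMap_apply, AlternatingMap.map_perm,
      e.det_self, LinearMap.toSpanSingleton_apply, Units.smul_def, Units.smul_def,
      ← Int.cast_smul_eq_zsmul W.K, ← Int.cast_smul_eq_zsmul W.K, smul_eq_mul, mul_one]
  have h2 : ∀ x : Fin (n + 1) → M, g x = wedge W n fun j => φ (x j) := fun x => by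
    rw [← wedgeA_apply]
    rfl
  rw [← h2, ← h2]
  conv_lhs => rw [h]
  rfl

lemma chi_sq (a : ℕ) {m : ℕ} (σ : Equiv.Perm (Fin m)) : (chi a σ : W.K) * (chi a σ : W.K) = 1 := by
  have h : chi a σ * chi a σ = 1 := by
    rw [chi, ← mul_pow]
    rcases Int.units_eq_one_or (Equiv.Perm.sign σ) with h | h <;> rw [h] <;> norm_num
  exact_mod_cast h

/-- The pull-back of an external product by a permutation. -/
lemma map_tau' {a n : ℕ} (σ : Equiv.Perm (Fin (n + 1))) {y : Fin (n + 1) → W.H X}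
    (hy : ∀ j, y j ∈ W.gr X a) :
    W.map (tau X n σ) (tens W n y) = (chi a σ : W.K) • tens W n (y ∘ ⇑σ⁻¹) := by
  have h := map_tau (W := W) σ (x := y ∘ ⇑σ⁻¹) (fun j => hy _)
  have e : (y ∘ ⇑σ⁻¹) ∘ ⇑σ = y := by
    funext j
    simp
  rw [e] at h
  exact h

/-- The antisymmetrization of an external product. -/
lemma alt_tens {a n : ℕ} {y : Fin (n + 1) → W.H X} (hy : ∀ j, y j ∈ W.gr X a) :
    ∑ σ : Equiv.Perm (Fin (n + 1)), (((Equiv.Perm.sign σ : ℤ) : W.K) * (chi a σ : W.K)) •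
      W.map (tau X n σ) (tens W n y) = wedge W n y := by
  rw [wedge, ← Equiv.sum_comp (Equiv.inv (Equiv.Perm (Fin (n + 1))))]
  refine Finset.sum_congr rfl fun σ _ => ?_
  rw [map_tau' _ hy, smul_smul, mul_assoc, chi_sq, mul_one, Equiv.inv_apply, inv_inv,
    Equiv.Perm.sign_inv]

/-- The exchange of the middle factors. -/
lemma q_xp {a b : ℕ} (x : W.H Y) {x' : W.H Y} {y : W.H Z} (y' : W.H Z) (hx' : x' ∈ PH W Y a)
    (hy : y ∈ PH W Z b) :
    W.map (q1 Y Z) (xp W x x') * W.map (q2 Y Z) (xp W y y') =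
      (-1 : W.K) ^ (a * b) • xp W (xp W x y) (xp W x' y') := by
  have e1 : W.map (q1 Y Z) (xp W x x') =
    xp W (W.map (fst Y Z) x) (W.map (fst Y Z) x') := q1_tmul x x'
  have e2 : W.map (q2 Y Z) (xp W y y') =
    xp W (W.map (snd Y Z) y) (W.map (snd Y Z) y') := q2_tmul y y'
  rw [e1, e2, xp_mul _ _ _ _ (PH.map _ hx') (PH.map _ hy)]
  rfl

lemma sum_snoc {A : Type*} [AddCommMonoid A] {n N : ℕ} (F : (Fin (n + 1) → Fin N) → A) :
    ∑ κ, F κ = ∑ κ : Fin n → Fin N, ∑ j, F (Fin.snoc (α := fun _ => Fin N) κ j) := by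
  rw [← Equiv.sum_comp (Fin.snocEquiv fun _ => Fin N), Fintype.sum_prod_type, Finset.sum_comm]
  rfl

/-- The external powers of the class `∑ g_k × f_k`. -/
lemma ext_pow (S : Sys W) {a b N : ℕ} {g f : Fin (N + 1) → W.H X} (hg : ∀ j, g j ∈ W.gr X a)
    (hf : ∀ j, f j ∈ W.gr X b) (hψ : ∑ j, xp W (g j) (f j) ∈ S.C (X.prod X)) :
    ∀ n : ℕ, ∃ (c : W.H ((pw X n).prod (pw X n))) (s : W.K), c ∈ S.C ((pw X n).prod (pw X n)) ∧
      s ≠ 0 ∧
      c = s • ∑ κ : Fin (n + 1) → Fin (N + 1), xp W (tens W n (g ∘ κ)) (tens W n (f ∘ κ))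
  | 0 => by
    have h1 : ∑ κ : Fin 1 → Fin (N + 1), xp W (X := X) (Y := X) (g (κ 0)) (f (κ 0)) =
        ∑ j, xp W (g j) (f j) :=
      Fintype.sum_equiv (Equiv.funUnique (Fin 1) (Fin (N + 1))) _ _ fun κ => rfl
    refine ⟨∑ j, xp W (X := X) (Y := X) (g j) (f j), 1, hψ, one_ne_zero, ?_⟩
    rw [one_smul]
    exact h1.symm
  | n + 1 => by
    obtain ⟨c, s, hc, hs, e⟩ := ext_pow S hg hf hψ n
    refine ⟨W.map (q1 (pw X n) X) c * W.map (q2 (pw X n) X) (∑ j, xp W (g j) (f j)),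
      s * (-1) ^ (((n + 1) * b) * a), S.mul (S.map _ hc) (S.map _ hψ),
      mul_ne_zero hs (pow_ne_zero _ (neg_ne_zero.2 one_ne_zero)), ?_⟩
    rw [e, map_smul, smul_mul_assoc, mul_smul]
    congr 1
    rw [map_sum, map_sum, Finset.sum_mul_sum, Finset.smul_sum]
    refine Eq.trans ?_ (sum_snoc _).symm
    refine Finset.sum_congr rfl fun κ _ => ?_
    refine Finset.sum_congr rfl fun j _ => ?_
    have e1 : ∀ h : Fin (N + 1) → W.H X, tens W (n + 1)
        (h ∘ Fin.snoc (α := fun _ => Fin (N + 1)) κ j) =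
          xp W (tens W n (h ∘ κ)) (h j) := by
      intro h
      rw [tens_succ]
      congr 1
      · congr 1
        funext i
        rw [Function.comp_apply, Fin.snoc_castSucc]
        rfl
      · rw [Function.comp_apply, Fin.snoc_last]
    rw [e1, e1]
    exact q_xp _ _ (PH.of (tens_gr fun _ => hf _)) (PH.of (hg _))

/-- The product of the identity and a morphism. -/
noncomputable def sndMap (Y : 𝒱.Obj) {Z Z' : 𝒱.Obj} (f : Z ⟶ Z') : Y.prod Z ⟶ Y.prod Z' :=
  Obj.lift (fst Y Z) (snd Y Z ≫ f)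

lemma map_sndMap {Z' : 𝒱.Obj} (f : Z ⟶ Z') (x : W.H Y) (y : W.H Z') :
    W.map (sndMap Y f) (xp W x y) = xp W x (W.map f y) := by
  have e1 : sndMap Y f ≫ fst Y Z' = fst Y Z := Obj.lift_fst _ _
  have e2 : sndMap Y f ≫ snd Y Z' = snd Y Z ≫ f := Obj.lift_snd _ _
  rw [xp, map_mul (W.map (sndMap Y f)), ← W.map_comp, ← W.map_comp, e1, e2, W.map_comp]
  rfl

lemma wedge_perm {n : ℕ} (f : Fin (n + 1) → W.H X) (σ : Equiv.Perm (Fin (n + 1))) :
    wedge W n (f ∘ σ) = ((Equiv.Perm.sign σ : ℤ) : W.K) • wedge W n f := by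
  rw [← wedgeA_apply, ← wedgeA_apply, AlternatingMap.map_perm, Units.smul_def,
    ← Int.cast_smul_eq_zsmul W.K]

lemma wedge_ninj {n : ℕ} (f : Fin (n + 1) → W.H X) {κ : Fin (n + 1) → Fin (n + 1)}
    (h : ¬ Function.Injective κ) : wedge W n (f ∘ κ) = 0 := by
  rw [← wedgeA_apply]
  apply AlternatingMap.map_eq_zero_of_not_injective
  intro h'
  exact h (Function.Injective.of_comp h')

/-- The sum over all maps of terms vanishing for the maps which are not injective. -/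
lemma sum_perm {A : Type*} [AddCommMonoid A] {n : ℕ} (F : (Fin n → Fin n) → A)
    (h : ∀ κ, ¬ Function.Injective κ → F κ = 0) :
    ∑ κ, F κ = ∑ σ : Equiv.Perm (Fin n), F σ := by
  symm
  refine Finset.sum_of_injOn (fun σ : Equiv.Perm (Fin n) => (σ : Fin n → Fin n)) ?_ ?_ ?_ ?_
  · intro σ _ τ _ h'
    exact DFunLike.coe_injective h'
  · intro σ _
    exact Finset.mem_coe.2 (Finset.mem_univ _)
  · intro κ _ hκ
    apply h
    intro hi
    apply hκ
    exact ⟨Equiv.ofBijective κ (Finite.injective_iff_bijective.1 hi),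
      Finset.mem_coe.2 (Finset.mem_univ _), rfl⟩
  · intro σ _
    rfl

/-- **The determinant class from a correspondence.** -/
theorem det_mem (S : Sys W) {a b n : ℕ} {g f : Fin (n + 1) → W.H X} (hg : ∀ j, g j ∈ W.gr X a)
    (hf : ∀ j, f j ∈ W.gr X b) (hψ : ∑ j, xp W (g j) (f j) ∈ S.C (X.prod X)) :
    xp W (wedge W n g) (wedge W n f) ∈ S.C ((pw X n).prod (pw X n)) := by
  obtain ⟨c, s, hc, hs, e⟩ := ext_pow S hg hf hψ n
  have h1 : ∑ σ : Equiv.Perm (Fin (n + 1)), (((Equiv.Perm.sign σ : ℤ) : W.K) * (chi b σ : W.K)) •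
      W.map (sndMap (pw X n) (tau X n σ)) c ∈ S.C ((pw X n).prod (pw X n)) :=
    Submodule.sum_mem _ fun σ _ => Submodule.smul_mem _ _ (S.map _ hc)
  have h2 : ∑ σ : Equiv.Perm (Fin (n + 1)), (((Equiv.Perm.sign σ : ℤ) : W.K) * (chi b σ : W.K)) •
      W.map (sndMap (pw X n) (tau X n σ)) c = s • xp W (wedge W n g) (wedge W n f) := by
    have h3 : ∀ σ : Equiv.Perm (Fin (n + 1)),
        (((Equiv.Perm.sign σ : ℤ) : W.K) * (chi b σ : W.K)) •
          W.map (sndMap (pw X n) (tau X n σ)) c = s • ∑ κ : Fin (n + 1) → Fin (n + 1),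
            xp W (tens W n (g ∘ κ)) ((((Equiv.Perm.sign σ : ℤ) : W.K) * (chi b σ : W.K)) •
              W.map (tau X n σ) (tens W n (f ∘ κ))) := by
      intro σ
      rw [e, map_smul, smul_comm, map_sum, Finset.smul_sum]
      congr 1
      refine Finset.sum_congr rfl fun κ _ => ?_
      rw [map_sndMap, xp_smul_right]
    rw [Finset.sum_congr rfl fun σ _ => h3 σ, ← Finset.smul_sum, Finset.sum_comm]
    congr 1
    have h4 : ∀ κ : Fin (n + 1) → Fin (n + 1), ∑ σ : Equiv.Perm (Fin (n + 1)),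
        xp W (tens W n (g ∘ κ)) ((((Equiv.Perm.sign σ : ℤ) : W.K) * (chi b σ : W.K)) •
          W.map (tau X n σ) (tens W n (f ∘ κ))) =
        xp W (tens W n (g ∘ κ)) (wedge W n (f ∘ κ)) := by
      intro κ
      rw [← alt_tens (a := b) (y := f ∘ κ) (fun j => hf (κ j)), xp, map_sum, Finset.mul_sum]
      rfl
    rw [Finset.sum_congr rfl fun κ _ => h4 κ, sum_perm _ fun κ hκ => ?_]
    · rw [wedge, xp, map_sum, Finset.sum_mul]
      refine Finset.sum_congr rfl fun σ _ => ?_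
      rw [wedge_perm, xp_smul_right, map_smul, smul_mul_assoc]
      rfl
    · rw [wedge_ninj f hκ, xp, map_zero, mul_zero]
  rw [h2] at h1
  have h5 := Submodule.smul_mem _ s⁻¹ h1
  rwa [inv_smul_smul₀ hs] at h5

end Pool.Agent.Q55.Det
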