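import Pool.Agent.Q55.Det.Tens
import Pool.Agent.H914R2.GBasic

/-!
# The powers of the divisor classes and the determinant classes
-/

open CategoryTheory AlgebraicGeometry

universe u v

namespace Pool.Agent.Q55.Det

open Module
open Pool.Agent.H914 Pool.Agent.H914.VarClass Pool.Agent.H914.VarClass.Obj
  Pool.Agent.H914.WeilCohomology Pool.Agent.Y133.Half

variable {k : Type u} [Field k] {𝒱 : VarClass k} {ops : CycleOps 𝒱}
  {W : WeilCohomology.{u, v} ops} {X Y Z : 𝒱.Obj}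

lemma pow_even {α : W.H X} (hα : α ∈ PH W X 0) (m : ℕ) : α ^ m ∈ PH W X 0 := by
  induction m with
  | zero =>
    have h1 : (1 : W.H X) ∈ PH W X 0 := PH.of (i := 0) (W.one_mem X)
    rw [pow_zero]
    exact h1
  | succ m ih =>
    have h1 : α ^ m * α ∈ PH W X (0 + 0) := PH.mul ih hα
    rw [pow_succ]
    exact h1

lemma xp_even_mul {α : W.H X} {β : W.H Y} (hβ : β ∈ PH W Y 0) (x : W.H X) (y : W.H Y) :
    W.map (fst X Y) α * W.map (snd X Y) β * xp W x y = xp W (α * x) (β * y) := by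
  rw [xp, xp, mul_assoc, ← mul_assoc (W.map (snd X Y) β), PH.even_comm (PH.map _ hβ),
    map_mul (W.map (fst X Y)), map_mul (W.map (snd X Y))]
  simp only [mul_assoc]

/-- The top power of the sum of two classes. -/
lemma xp_pow_mul {α : W.H X} {β : W.H Y} (hα : α ∈ PH W X 0) (hβ : β ∈ PH W Y 0) {x : W.H X}
    {y : W.H Y} {a b : ℕ} (hx : α ^ (a + 1) * x = 0) (hy : β ^ (b + 1) * y = 0) :
    (W.map (fst X Y) α + W.map (snd X Y) β) ^ (a + b) * xp W x y =
        ((a + b).choose a : W.K) • xp W (α ^ a * x) (β ^ b * y) ∧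
      (W.map (fst X Y) α + W.map (snd X Y) β) ^ (a + b + 1) * xp W x y = 0 := by
  have hx' : ∀ m, a < m → α ^ m * x = 0 := by
    intro m hm
    obtain ⟨d, rfl⟩ : ∃ d, m = d + (a + 1) := ⟨m - (a + 1), by omega⟩
    rw [pow_add, mul_assoc, hx, mul_zero]
  have hy' : ∀ m, b < m → β ^ m * y = 0 := by
    intro m hm
    obtain ⟨d, rfl⟩ : ∃ d, m = d + (b + 1) := ⟨m - (b + 1), by omega⟩
    rw [pow_add, mul_assoc, hy, mul_zero]
  have hc : Commute (W.map (fst X Y) α) (W.map (snd X Y) β) := PH.even_comm (PH.map _ hα) _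
  have key : ∀ N : ℕ, (W.map (fst X Y) α + W.map (snd X Y) β) ^ N * xp W x y =
      ∑ m ∈ Finset.range (N + 1), (N.choose m : W.K) • xp W (α ^ m * x) (β ^ (N - m) * y) := by
    intro N
    rw [hc.add_pow, Finset.sum_mul]
    refine Finset.sum_congr rfl fun m _ => ?_
    rw [mul_assoc, Nat.cast_comm, ← mul_assoc, ← map_pow, ← map_pow,
      ← nsmul_eq_mul', ← Nat.cast_smul_eq_nsmul W.K]
    congr 1
    exact xp_even_mul (pow_even hβ _) x y
  constructor
  · rw [key, Finset.sum_eq_single a]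
    · rw [Nat.add_sub_cancel_left]
    · intro m hm hma
      rw [Finset.mem_range] at hm
      rcases Nat.lt_or_ge a m with h | h
      · rw [hx' m h, xp, map_zero, zero_mul, smul_zero]
      · rw [hy' (a + b - m) (by omega), xp, map_zero, mul_zero, smul_zero]
    · intro h
      exact absurd (Finset.mem_range.2 (by omega)) h
  · rw [key, Finset.sum_eq_zero]
    intro m hm
    rw [Finset.mem_range] at hm
    rcases Nat.lt_or_ge a m with h | h
    · rw [hx' m h, xp, map_zero, zero_mul, smul_zero]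
    · rw [hy' (a + b + 1 - m) (by omega), xp, map_zero, mul_zero, smul_zero]

lemma cl_even {D : X.Cycles} (hD : X.IsCyc 1 D) : W.cl X D ∈ PH W X 0 :=
  PH.of' (i := 2 * 1) (by omega) (W.cl_mem hD)

lemma powDiv_mem {D : X.Cycles} (hD : X.IsCyc 1 D) : ∀ n, (pw X n).IsCyc 1 (powDiv ops D n)
  | 0 => hD
  | n + 1 => (ops.pull_mem _ (powDiv_mem hD n)).add (ops.pull_mem _ hD)

lemma dblDiv_mem {D : X.Cycles} (hD : X.IsCyc 1 D) (n : ℕ) :
    (dblPw X n).IsCyc 1 (dblDiv ops D n) := boxSum_mem (powDiv_mem hD n)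

lemma cl_powDiv_succ (D : X.Cycles) (n : ℕ) : W.cl (pw X (n + 1)) (powDiv ops D (n + 1)) =
    W.map (fst (pw X n) X) (W.cl (pw X n) (powDiv ops D n)) + W.map (snd (pw X n) X) (W.cl X D) := by
  have h : W.cl (pw X (n + 1)) (powDiv ops D (n + 1)) = W.cl ((pw X n).prod X)
    (ops.pull (fst (pw X n) X) (powDiv ops D n) + ops.pull (snd (pw X n) X) D) := rfl
  rw [h, map_add, W.cl_pull, W.cl_pull]

lemma cl_dblDiv (D : X.Cycles) (n : ℕ) : W.cl (dblPw X n) (dblDiv ops D n) =
    W.map (fst (pw X n) (pw X n)) (W.cl (pw X n) (powDiv ops D n)) +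
      W.map (snd (pw X n) (pw X n)) (W.cl (pw X n) (powDiv ops D n)) := by
  have h : W.cl (dblPw X n) (dblDiv ops D n) = W.cl ((pw X n).prod (pw X n))
    (ops.pull (fst _ _) (powDiv ops D n) + ops.pull (snd _ _) (powDiv ops D n)) := rfl
  rw [h, map_add, W.cl_pull, W.cl_pull]

/-- The top power of the divisor class and the external products. -/
lemma tens_hyp (W : WeilCohomology.{u, v} ops) {D : X.Cycles} (hD : X.IsCyc 1 D) (c : ℕ) :
    ∀ n : ℕ, ∃ C : W.K, C ≠ 0 ∧
    ∀ x : Fin (n + 1) → W.H X, (∀ j, W.cl X D ^ (c + 1) * x j = 0) →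
      W.cl (pw X n) (powDiv ops D n) ^ ((n + 1) * c) * tens W n x =
        C • tens W n (fun j => W.cl X D ^ c * x j) ∧
      W.cl (pw X n) (powDiv ops D n) ^ ((n + 1) * c + 1) * tens W n x = 0
  | 0 => by
    refine ⟨1, one_ne_zero, fun x hx => ?_⟩
    have e1 : (0 + 1) * c = c := by ring
    rw [one_smul, e1]
    exact ⟨rfl, hx 0⟩
  | n + 1 => by
    obtain ⟨C, hC, h⟩ := tens_hyp W hD c n
    refine ⟨(((n + 1) * c + c).choose ((n + 1) * c) : W.K) * C, mul_ne_zero ?_ hC, fun x hx => ?_⟩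
    · exact_mod_cast (Nat.choose_pos (by omega)).ne'
    · obtain ⟨h1, h2⟩ := h (fun j => x j.castSucc) fun j => hx _
      have h3 := xp_pow_mul (cl_even (powDiv_mem (ops := ops) hD n)) (cl_even hD) h2
        (hx (Fin.last (n + 1)))
      have e1 : (n + 1 + 1) * c = (n + 1) * c + c := by ring
      rw [e1, cl_powDiv_succ, mul_smul, tens_succ, tens_succ]
      refine ⟨?_, h3.2⟩
      refine h3.1.trans ?_
      rw [h1, xp_smul_left]
      rfl

/-- The top power of the divisor class and the determinants. -/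
lemma wedge_hyp (W : WeilCohomology.{u, v} ops) {D : X.Cycles} (hD : X.IsCyc 1 D) (c n : ℕ) :
    ∃ C : W.K, C ≠ 0 ∧
    ∀ x : Fin (n + 1) → W.H X, (∀ j, W.cl X D ^ (c + 1) * x j = 0) →
      W.cl (pw X n) (powDiv ops D n) ^ ((n + 1) * c) * wedge W n x =
        C • wedge W n (fun j => W.cl X D ^ c * x j) ∧
      W.cl (pw X n) (powDiv ops D n) ^ ((n + 1) * c + 1) * wedge W n x = 0 := by
  obtain ⟨C, hC, h⟩ := tens_hyp W hD c n
  refine ⟨C, hC, fun x hx => ⟨?_, ?_⟩⟩
  · rw [wedge, wedge, Finset.mul_sum, Finset.smul_sum]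
    refine Finset.sum_congr rfl fun σ _ => ?_
    rw [mul_smul_comm, (h (x ∘ σ) fun j => hx _).1, smul_comm]
    rfl
  · rw [wedge, Finset.mul_sum]
    refine Finset.sum_eq_zero fun σ _ => ?_
    rw [mul_smul_comm, (h (x ∘ σ) fun j => hx _).2, smul_zero]

/-- **The top power of the divisor class and the squares of the determinants.** -/
theorem detSq_hyp (W : WeilCohomology.{u, v} ops) {D : X.Cycles} (hD : X.IsCyc 1 D) (c n : ℕ) :
    ∃ C : W.K, C ≠ 0 ∧
    ∀ x : Fin (n + 1) → W.H X, (∀ j, W.cl X D ^ (c + 1) * x j = 0) →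
      W.cl (dblPw X n) (dblDiv ops D n) ^ (2 * ((n + 1) * c)) * detSq W n x =
        C • detSq W n (fun j => W.cl X D ^ c * x j) := by
  obtain ⟨C, hC, h⟩ := wedge_hyp W hD c n
  refine ⟨(((n + 1) * c + (n + 1) * c).choose ((n + 1) * c) : W.K) * (C * C),
    mul_ne_zero ?_ (mul_ne_zero hC hC), fun x hx => ?_⟩
  · exact_mod_cast (Nat.choose_pos (by omega)).ne'
  · obtain ⟨h1, h2⟩ := h x hx
    have h3 := (xp_pow_mul (cl_even (powDiv_mem (ops := ops) hD n))
      (cl_even (powDiv_mem (ops := ops) hD n)) h2 h2).1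
    rw [two_mul, cl_dblDiv]
    refine h3.trans ?_
    rw [h1, xp_smul_left, xp_smul_right, smul_smul, smul_smul, mul_assoc]
    rfl

end Pool.Agent.Q55.Det
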