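import Pool.Agent.H914R2.ThetaB

/-!
# Operators attached to the inverses of the powers of `L` in low degrees
-/

open Finset

namespace Pool.Agent.Q55.Det

open Pool.Agent.H914

variable {K : Type*} [Field K] [CharZero K] {V : Type*} [AddCommGroup V] [Module K V]
  {gr : ℕ → Submodule K V} {n : ℕ} {L : Module.End K V} {R : ℤ → Module.End K V → Prop}

/-- There is an inverse of the power of `L` on `gr j` in the algebra. -/
def HasInv (R : ℤ → Module.End K V → Prop) (gr : ℕ → Submodule K V) (n : ℕ) (L : Module.End K V)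
    (j : ℕ) : Prop :=
  ∃ θ, R (-((n - j : ℕ) : ℤ)) θ ∧ ∀ a ∈ gr j, θ ((L ^ (n - j)) a) = a

/-- The truncation below. -/
noncomputable def trA (h : DirectSum.IsInternal gr) (m : ℕ) : Module.End K V :=
  1 - ∑ l ∈ range m, proj h l

/-- The truncation above. -/
noncomputable def trB (h : DirectSum.IsInternal gr) (n m : ℕ) : Module.End K V :=
  1 - ∑ l ∈ range m, proj h (2 * n - l)

lemma trA_low (h : DirectSum.IsInternal gr) {m l : ℕ} (hl : l < m) {a : V} (ha : a ∈ gr l) :
    trA h m a = 0 := by
  rw [trA, LinearMap.sub_apply, Module.End.one_apply, LinearMap.sum_apply,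
    Finset.sum_eq_single l, proj_same h ha, sub_self]
  · intro l' _ hl'; exact proj_ne h ha (Ne.symm hl')
  · intro h'; exact absurd (Finset.mem_range.2 hl) h'

lemma trA_high (h : DirectSum.IsInternal gr) {m l : ℕ} (hl : m ≤ l) {a : V} (ha : a ∈ gr l) :
    trA h m a = a := by
  rw [trA, LinearMap.sub_apply, Module.End.one_apply, LinearMap.sum_apply,
    Finset.sum_eq_zero, sub_zero]
  intro l' hl'
  rw [Finset.mem_range] at hl'
  exact proj_ne h ha (by omega)

lemma trB_high (h : DirectSum.IsInternal gr) (hbd : ∀ i, 2 * n + 1 ≤ i → gr i = ⊥) {m l : ℕ}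
    (hm : m ≤ n) (hl : 2 * n - m < l) {a : V} (ha : a ∈ gr l) : trB h n m a = 0 := by
  by_cases hl2 : 2 * n < l
  · rw [hbd l (by omega)] at ha
    rw [(Submodule.mem_bot _).1 ha, map_zero]
  · rw [trB, LinearMap.sub_apply, Module.End.one_apply, LinearMap.sum_apply,
      Finset.sum_eq_single (2 * n - l), show 2 * n - (2 * n - l) = l by omega,
      proj_same h ha, sub_self]
    · intro l' hl' hne
      rw [Finset.mem_range] at hl'
      exact proj_ne h ha (by omega)
    · intro h'; exact absurd (Finset.mem_range.2 (by omega)) h'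

lemma trB_low (h : DirectSum.IsInternal gr) {m l : ℕ} (hm : m ≤ n) (hl : l ≤ 2 * n - m) {a : V}
    (ha : a ∈ gr l) : trB h n m a = a := by
  rw [trB, LinearMap.sub_apply, Module.End.one_apply, LinearMap.sum_apply,
    Finset.sum_eq_zero, sub_zero]
  intro l' hl'
  rw [Finset.mem_range] at hl'
  exact proj_ne h ha (by omega)

variable (hR : OpAlg gr R)

include hR

lemma trA_mem (h : DirectSum.IsInternal gr) {m : ℕ} (hp : ∀ j < m, R 0 (proj h j)) :
    R 0 (trA h m) :=
  hR.sub hR.one (hR.sum fun l hl => hp l (Finset.mem_range.1 hl))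

lemma trB_mem (h : DirectSum.IsInternal gr) {m : ℕ} (hp : ∀ j < m, R 0 (proj h (2 * n - j))) :
    R 0 (trB h n m) :=
  hR.sub hR.one (hR.sum fun l hl => hp l (Finset.mem_range.1 hl))

/-- The projectors in low degrees. -/
lemma proj_low (h : DirectSum.IsInternal gr) (hbd : ∀ i, 2 * n + 1 ≤ i → gr i = ⊥)
    (hL : R 1 L) (hHL : HardLef gr n L) {i : ℕ} (hi : i ≤ n)
    (hθ : ∀ j < i, HasInv R gr n L j) :
    ∀ m < i, R 0 (proj h m) ∧ R 0 (proj h (2 * n - m)) := by
  have hLh : IsHom gr 2 L := by simpa using hR.hom hL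
  intro m
  induction m using Nat.strong_induction_on with
  | _ m ih =>
    intro hm
    obtain ⟨θ, hθR, hθ'⟩ := hθ m hm
    set c := n - m with hc
    have hAR : R 0 (trA h m) := trA_mem hR h fun j hj => (ih j hj (by omega)).1
    have hBR : R 0 (trB h n m) := trB_mem hR h fun j hj => (ih j hj (by omega)).2
    set T := trA h m * θ * trB h n m with hT
    have hTR : R (-c) T := hR.cast (hR.mul (hR.mul hAR hθR) hBR) (by ring)
    have hTsupp : ∀ l, l ≠ 2 * n - m → ∀ a ∈ gr l, T a = 0 := by
      intro l hl a ha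
      rw [hT, Module.End.mul_apply, Module.End.mul_apply]
      by_cases h1 : 2 * n - m < l
      · rw [trB_high h hbd (by omega) h1 ha, map_zero, map_zero]
      · rw [trB_low h (by omega) (by omega) ha]
        have h2 := hR.hom hθR l a (by rw [grZ_natCast]; exact ha)
        by_cases h3 : 2 * c ≤ l
        · rw [show (l : ℤ) + 2 * -(c : ℤ) = ((l - 2 * c : ℕ) : ℤ) by omega, grZ_natCast] at h2
          exact trA_low h (by omega) h2
        · rw [grZ_of_neg (by omega)] at h2
          rw [(Submodule.mem_bot _).1 h2, map_zero]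
    have hTinv : ∀ a ∈ gr m, T ((L ^ c) a) = a := by
      intro a ha
      have h1 := pow_L_mem hLh ha c
      rw [hT, Module.End.mul_apply, Module.End.mul_apply, trB_low h (by omega) (by omega) h1,
        hθ' a ha, trA_high h le_rfl ha]
    constructor
    · have e : proj h m = T * L ^ c := by
        apply gr_ext h
        intro l a ha
        rw [Module.End.mul_apply]
        by_cases hl : l = m
        · subst hl
          rw [proj_same h ha, hTinv a ha]
        · rw [proj_ne h ha hl, hTsupp (l + 2 * c) (by omega) _ (pow_L_mem hLh ha c)]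
      rw [e]
      exact hR.cast (hR.mul hTR (hR.pow hL c)) (by ring)
    · have e : proj h (2 * n - m) = L ^ c * T := by
        apply gr_ext h
        intro l a ha
        rw [Module.End.mul_apply]
        by_cases hl : l = 2 * n - m
        · subst hl
          rw [proj_same h ha]
          obtain ⟨b, hb, hb'⟩ := (hHL m (by omega)).2 a ha
          rw [← hb', hTinv b hb]
        · rw [proj_ne h ha hl, hTsupp l hl a ha, map_zero]
      rw [e]
      exact hR.cast (hR.mul (hR.pow hL c) hTR) (by ring)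

/-- The operator which is the power of `L` on the primitive part of degree `i` and vanishes on the
complement. -/
theorem exists_psi (h : DirectSum.IsInternal gr) (hbd : ∀ i, 2 * n + 1 ≤ i → gr i = ⊥)
    (hL : R 1 L) (hHL : HardLef gr n L) {i : ℕ} (hi : i ≤ n)
    (hθ : ∀ j < i, HasInv R gr n L j) :
    ∃ Ψ, R ((n - i : ℕ) : ℤ) Ψ ∧
      (∀ a ∈ gr i, (L ^ (n - i + 1)) a = 0 → Ψ a = (L ^ (n - i)) a) ∧
      (2 ≤ i → ∀ b ∈ gr (i - 2), Ψ (L b) = 0) ∧ ∀ l, l ≠ i → ∀ a ∈ gr l, Ψ a = 0 := by
  have hLh : IsHom gr 2 L := by simpa using hR.hom hL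
  have hp := proj_low hR h hbd hL hHL hi hθ
  set c := n - i with hc
  have hAR : R 0 (trA h i) := trA_mem hR h fun j hj => (hp j hj).1
  have hBR : R 0 (trB h n i) := trB_mem hR h fun j hj => (hp j hj).2
  set T := trB h n i * L ^ c * trA h i with hT
  have hTR : R c T := hR.cast (hR.mul (hR.mul hBR (hR.pow hL c)) hAR) (by ring)
  have hT1 : ∀ a ∈ gr i, T a = (L ^ c) a := by
    intro a ha
    rw [hT, Module.End.mul_apply, Module.End.mul_apply, trA_high h le_rfl ha,
      trB_low h hi (by omega) (pow_L_mem hLh ha c)]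
  have hT2 : ∀ l, l ≠ i → ∀ a ∈ gr l, T a = 0 := by
    intro l hl a ha
    rw [hT, Module.End.mul_apply, Module.End.mul_apply]
    rcases Nat.lt_or_ge l i with h1 | h1
    · rw [trA_low h h1 ha, map_zero, map_zero]
    · rw [trA_high h h1 ha, trB_high h hbd hi (by omega) (pow_L_mem hLh ha c)]
  by_cases h2 : 2 ≤ i
  · obtain ⟨θ, hθR, hθ'⟩ := hθ (i - 2) (by omega)
    have e2 : n - (i - 2) = c + 2 := by omega
    rw [e2] at hθR hθ'
    refine ⟨(1 - L ^ (c + 1) * θ * L) * T, ?_, ?_, ?_, ?_⟩
    · refine hR.cast (hR.mul (hR.sub hR.one (hR.cast (hR.mul (hR.mul (hR.pow hL (c + 1)) hθR) hL)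
        ?_)) hTR) (zero_add _)
      push_cast
      ring
    · intro a ha hpa
      rw [Module.End.mul_apply, hT1 a ha, LinearMap.sub_apply, Module.End.mul_apply,
        ← Module.End.mul_apply L, ← pow_succ', hpa, map_zero, Module.End.one_apply, sub_zero]
    · intro _ b hb
      have hLb : L b ∈ gr i := by
        have := pow_L_mem hLh hb 1
        rwa [pow_one, show i - 2 + 2 * 1 = i by omega] at this
      have e3 : L ((L ^ c) (L b)) = (L ^ (c + 2)) b := by
        rw [← Module.End.mul_apply, ← Module.End.mul_apply, ← pow_succ', ← pow_succ]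
      have e4 : (L ^ c) (L b) = (L ^ (c + 1)) b := by
        rw [← Module.End.mul_apply, ← pow_succ]
      rw [Module.End.mul_apply, hT1 _ hLb, LinearMap.sub_apply, Module.End.mul_apply,
        Module.End.mul_apply, e3, hθ' b hb, Module.End.one_apply, e4, sub_self]
    · intro l hl a ha
      rw [Module.End.mul_apply, hT2 l hl a ha, map_zero]
  · exact ⟨T, hTR, fun a ha _ => hT1 a ha, fun h => absurd h h2, hT2⟩

/-- The operator which vanishes in the degrees less than `i` and projects to the primitive part in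
the degree `i`. -/
theorem exists_pproj (h : DirectSum.IsInternal gr) (hbd : ∀ i, 2 * n + 1 ≤ i → gr i = ⊥)
    (hL : R 1 L) (hHL : HardLef gr n L) {i : ℕ} (hi : i ≤ n)
    (hθ : ∀ j < i, HasInv R gr n L j) :
    ∃ E, R 0 E ∧ (∀ a ∈ gr i, (L ^ (n - i + 1)) a = 0 → E a = a) ∧
      (2 ≤ i → ∀ b ∈ gr (i - 2), E (L b) = 0) ∧ ∀ l < i, ∀ a ∈ gr l, E a = 0 := by
  have hLh : IsHom gr 2 L := by simpa using hR.hom hL
  have hp := proj_low hR h hbd hL hHL hi hθ
  have hAR : R 0 (trA h i) := trA_mem hR h fun j hj => (hp j hj).1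
  by_cases h2 : 2 ≤ i
  · obtain ⟨θ, hθR, hθ'⟩ := hθ (i - 2) (by omega)
    set c := n - i with hc
    have e2 : n - (i - 2) = c + 2 := by omega
    rw [e2] at hθR hθ'
    refine ⟨(1 - L * θ * L ^ (c + 1)) * trA h i, ?_, ?_, ?_, ?_⟩
    · refine hR.cast (hR.mul (hR.sub hR.one (hR.cast (hR.mul (hR.mul hL hθR) (hR.pow hL (c + 1)))
        ?_)) hAR) (zero_add _)
      push_cast
      ring
    · intro a ha hpa
      rw [Module.End.mul_apply, trA_high h le_rfl ha, LinearMap.sub_apply, Module.End.mul_apply,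
        hpa, map_zero, Module.End.one_apply, sub_zero]
    · intro _ b hb
      have hLb : L b ∈ gr i := by
        have := pow_L_mem hLh hb 1
        rwa [pow_one, show i - 2 + 2 * 1 = i by omega] at this
      have e3 : (L ^ (c + 1)) (L b) = (L ^ (c + 2)) b := by
        rw [← Module.End.mul_apply, ← pow_succ]
      rw [Module.End.mul_apply, trA_high h le_rfl hLb, LinearMap.sub_apply, Module.End.mul_apply,
        Module.End.mul_apply, e3, hθ' b hb, Module.End.one_apply, sub_self]
    · intro l hl a ha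
      rw [Module.End.mul_apply, trA_low h hl ha, map_zero]
  · exact ⟨trA h i, hAR, fun a ha _ => trA_high h le_rfl ha, fun h => absurd h h2,
      fun l hl a ha => trA_low h hl ha⟩

/-- From the primitive part to the whole of degree `i`. -/
theorem exists_nu (hbd : ∀ i, 2 * n + 1 ≤ i → gr i = ⊥)
    (hL : R 1 L) (hHL : HardLef gr n L) {i : ℕ} (hi : i ≤ n)
    (hθ : ∀ j < i, HasInv R gr n L j) {ν : Module.End K V} (hν : R (-((n - i : ℕ) : ℤ)) ν)
    (h1 : ∀ a ∈ gr i, (L ^ (n - i + 1)) a = 0 → (L ^ (n - i + 1)) (ν ((L ^ (n - i)) a)) = 0)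
    (h2 : ∀ a ∈ gr i, (L ^ (n - i + 1)) a = 0 → ν ((L ^ (n - i)) a) = 0 → a = 0)
    (h3 : 2 ≤ i → ∀ b ∈ gr (i - 2), ν ((L ^ (n - i + 1)) b) = 0) :
    ∃ ν', R (-((n - i : ℕ) : ℤ)) ν' ∧ ∀ x ∈ gr (n + (n - i)), ν' x = 0 → x = 0 := by
  have hLh : IsHom gr 2 L := by simpa using hR.hom hL
  set c := n - i with hc
  by_cases h2i : 2 ≤ i
  · obtain ⟨θ, hθR, hθ'⟩ := hθ (i - 2) (by omega)
    have e2 : n - (i - 2) = c + 2 := by omega
    rw [e2] at hθR hθ'
    refine ⟨ν + L * θ * L, hR.add hν ?_, ?_⟩
    · refine hR.cast (hR.mul (hR.mul hL hθR) hL) ?_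
      push_cast
      ring
    · intro x hx h0
      obtain ⟨y, hy, rfl⟩ := (hHL i hi).2 x (by rw [show 2 * n - i = n + c by omega]; exact hx)
      rw [← hc] at h0 ⊢
      rcases prim_split hLh hbd hHL hi hy with hp | ⟨_, b, hb, hp⟩
      · rw [LinearMap.add_apply, Module.End.mul_apply, ← Module.End.mul_apply L (L ^ c),
          ← pow_succ', hp, map_zero, add_zero] at h0
        rw [h2 y hy hp h0, map_zero]
      · have hLb : L b ∈ gr i := by
          have := pow_L_mem hLh hb 1
          rwa [pow_one, show i - 2 + 2 * 1 = i by omega] at this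
        set a := y - L b with ha
        have hag : a ∈ gr i := Submodule.sub_mem _ hy hLb
        have hya : y = a + L b := by rw [ha, sub_add_cancel]
        have e3 : L ((L ^ c) (L b)) = (L ^ (c + 2)) b := by
          rw [← Module.End.mul_apply, ← Module.End.mul_apply, ← pow_succ', ← pow_succ]
        have e4 : (L ^ c) (L b) = (L ^ (c + 1)) b := by
          rw [← Module.End.mul_apply, ← pow_succ]
        have e5 : L ((L ^ c) a) = 0 := by
          rw [← Module.End.mul_apply, ← pow_succ', hp]
        have e6 : ν ((L ^ c) a) + L b = 0 := by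
          rw [hya, map_add, map_add, LinearMap.add_apply, LinearMap.add_apply,
            Module.End.mul_apply, Module.End.mul_apply, Module.End.mul_apply, Module.End.mul_apply,
            e5, e3, hθ' b hb, e4, h3 h2i b hb, map_zero, map_zero, add_zero, zero_add] at h0
          exact h0
        have e7 : (L ^ (c + 2)) b = 0 := by
          have e8 := congrArg (L ^ (c + 1)) e6
          rw [map_add, h1 a hag hp, zero_add, map_zero, ← Module.End.mul_apply, ← pow_succ] at e8
          exact e8
        have e8 : b = 0 := by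
          refine (hHL (i - 2) (by omega)).1 b hb ?_
          rw [e2]
          exact e7
        rw [e8, map_zero, add_zero] at e6
        have e9 : a = 0 := h2 a hag hp e6
        rw [hya, e9, e8, map_zero, add_zero, map_zero]
  · refine ⟨ν, hν, fun x hx h0 => ?_⟩
    obtain ⟨y, hy, rfl⟩ := (hHL i hi).2 x (by rw [show 2 * n - i = n + c by omega]; exact hx)
    rw [← hc] at h0 ⊢
    rcases prim_split hLh hbd hHL hi hy with hp | ⟨h', _⟩
    · rw [h2 y hy hp h0, map_zero]
    · exact absurd h' h2i

end Pool.Agent.Q55.Det
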