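import Pool.Agent.Q55.Det.ExtD
import Pool.Agent.Q55.Det.Contr
import Pool.Agent.Q55.Det.LowP
import Pool.Agent.Q55.Det.Hyp

/-!
# The form on the primitive cohomology
-/

open CategoryTheory AlgebraicGeometry

universe u v

namespace Pool.Agent.Q55.Det

open Module
open Pool.Agent.H914 Pool.Agent.H914.VarClass Pool.Agent.H914.VarClass.Obj
  Pool.Agent.H914.WeilCohomology Pool.Agent.Y133.Half

variable {k : Type u} [Field k] {𝒱 : VarClass k} {ops : CycleOps 𝒱}
  {W : WeilCohomology.{u, v} ops} {X Y Z : 𝒱.Obj}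

lemma mulLeft_pow (ξ : W.H X) (m : ℕ) (x : W.H X) :
    (LinearMap.mulLeft W.K ξ ^ m) x = ξ ^ m * x := by
  rw [LinearMap.pow_mulLeft, LinearMap.mulLeft_apply]

lemma mem_prim {D : X.Cycles} {i : ℕ} {x : W.H X} :
    x ∈ prim W X D i ↔ x ∈ W.gr X i ∧ W.cl X D ^ (X.dim - i + 1) * x = 0 := by
  rw [prim, primPart, Submodule.mem_inf, LinearMap.mem_ker, mulLeft_pow]

lemma pow_gr {D : X.Cycles} (hD : X.IsCyc 1 D) (m : ℕ) : W.cl X D ^ m ∈ W.gr X (2 * m) := by
  have h1 : (1 : W.H X) ∈ W.gr X 0 := W.one_mem X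
  have h := pow_L_mem (mulLeft_isHom (W := W) hD) h1 m
  rwa [mulLeft_pow, mul_one, zero_add] at h

/-- A basis as a family. -/
lemma exists_basis {U : Submodule W.K (W.H X)} {m : ℕ} {e : Fin m → W.H X} (he : IsBasisOf U e) :
    ∃ b : Basis (Fin m) W.K U, ∀ j, (b j : W.H X) = e j := by
  have h1 : ∀ j, e j ∈ U := fun j => by
    rw [← he.2]
    exact Submodule.subset_span ⟨j, rfl⟩
  have h2 : LinearIndependent W.K (fun j => (⟨e j, h1 j⟩ : U)) :=
    LinearIndependent.of_comp U.subtype he.1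
  have h3 : ⊤ ≤ Submodule.span W.K (Set.range fun j => (⟨e j, h1 j⟩ : U)) := by
    rintro ⟨x, hx⟩ _
    have h4 : x ∈ Submodule.span W.K (Set.range e) := by rw [he.2]; exact hx
    rw [Submodule.mem_span_range_iff_exists_fun] at h4 ⊢
    obtain ⟨c, hc⟩ := h4
    refine ⟨c, Subtype.ext ?_⟩
    rw [AddSubmonoidClass.coe_finsetSum]
    exact hc
  exact ⟨Basis.mk h2 h3, fun j => by rw [Basis.mk_apply]⟩

lemma isBasisOf {U : Submodule W.K (W.H X)} {m : ℕ} (b : Basis (Fin m) W.K U) :
    IsBasisOf U (fun j => (b j : W.H X)) := by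
  refine ⟨b.linearIndependent.map' U.subtype (Submodule.ker_subtype U), ?_⟩
  have h1 : (Set.range fun j => (b j : W.H X)) = U.subtype '' Set.range b := by
    rw [← Set.range_comp]
    rfl
  rw [h1, Submodule.span_image, b.span_eq, Submodule.map_top, Submodule.range_subtype]

/-- The form `tr (ξ ^ (dim X - i) x y)` on the primitive cohomology. -/
noncomputable def pform (W : WeilCohomology.{u, v} ops) (X : 𝒱.Obj) (D : X.Cycles) (i : ℕ) :
    LinearMap.BilinForm W.K (prim W X D i) :=
  LinearMap.mk₂ W.K (fun x y => W.tr X (W.cl X D ^ (X.dim - i) * (x : W.H X) * (y : W.H X)))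
    (fun x x' y => by rw [Submodule.coe_add, mul_add, add_mul, map_add])
    (fun c x y => by rw [Submodule.coe_smul, mul_smul_comm, smul_mul_assoc, map_smul])
    (fun x y y' => by rw [Submodule.coe_add, mul_add, map_add])
    (fun c x y => by rw [Submodule.coe_smul, mul_smul_comm, map_smul])

lemma pform_apply {D : X.Cycles} {i : ℕ} (x y : prim W X D i) : pform W X D i x y =
    W.tr X (W.cl X D ^ (X.dim - i) * (x : W.H X) * (y : W.H X)) := rfl

/-- The primitive classes are orthogonal to the image of `L`. -/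
lemma prim_orth {D : X.Cycles} (hD : X.IsCyc 1 D) {i : ℕ} {x : W.H X} (hx : x ∈ prim W X D i)
    (b : W.H X) : W.tr X (W.cl X D ^ (X.dim - i) * x * (W.cl X D * b)) = 0 := by
  have h1 : W.cl X D ^ (X.dim - i) * x * (W.cl X D * b) =
      W.cl X D ^ (X.dim - i + 1) * x * b := by
    rw [← mul_assoc, ← PH.even_comm (cl_even hD), ← mul_assoc, ← pow_succ']
  rw [h1, (mem_prim.1 hx).2, zero_mul, map_zero]

lemma pform_left {D : X.Cycles} (hD : X.IsCyc 1 D) (hHL : HardLefschetz W X D) {i : ℕ}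
    (hi : i ≤ X.dim) : (pform W X D i).SeparatingLeft := by
  intro x hx
  obtain ⟨hx1, hx2⟩ := mem_prim.1 x.2
  have hLh := mulLeft_isHom (W := W) hD
  have h0 : W.cl X D ^ (X.dim - i) * (x : W.H X) = 0 := by
    apply W.nondeg
    intro z
    refine gr_induction (W.isInternal X) (p := fun z =>
      W.tr X (W.cl X D ^ (X.dim - i) * (x : W.H X) * z) = 0) ?_ ?_ z
    · intro l z hz
      by_cases hl : l = i
      · subst hl
        rcases prim_split hLh W_hbd hHL hi hz with hp | ⟨h2, b, hb, hp⟩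
        · exact hx ⟨z, mem_prim.2 ⟨hz, by rwa [mulLeft_pow] at hp⟩⟩
        · have hLb : W.cl X D * b ∈ W.gr X l := by
            have := pow_L_mem hLh hb 1
            rwa [mulLeft_pow, pow_one, show l - 2 + 2 * 1 = l by omega] at this
          have e1 : z = (z - W.cl X D * b) + W.cl X D * b := by rw [sub_add_cancel]
          rw [e1, mul_add, map_add, prim_orth hD x.2, add_zero]
          refine hx ⟨z - W.cl X D * b, mem_prim.2 ⟨Submodule.sub_mem _ hz hLb, ?_⟩⟩
          rw [mulLeft_pow, LinearMap.mulLeft_apply] at hp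
          exact hp
      · refine W.tr_eq_zero (W.mul_mem (W.mul_mem (pow_gr hD _) hx1) hz) ?_
        omega
    · intro a b ha hb
      rw [mul_add, map_add, ha, hb, add_zero]
  apply Subtype.ext
  refine (hHL i hi).1 _ hx1 ?_
  rw [mulLeft_pow]
  exact h0

lemma pform_nondeg {D : X.Cycles} (hD : X.IsCyc 1 D) (hHL : HardLefschetz W X D) {i : ℕ}
    (hi : i ≤ X.dim) : (pform W X D i).Nondegenerate :=
  LinearMap.BilinForm.Nondegenerate.ofSeparatingLeft (pform_left hD hHL hi)

lemma gram_det {D : X.Cycles} (hD : X.IsCyc 1 D) (hHL : HardLefschetz W X D) {i n : ℕ}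
    (hi : i ≤ X.dim) (e : Basis (Fin (n + 1)) W.K (prim W X D i)) :
    (gram W (W.cl X D ^ (X.dim - i)) fun j => (e j : W.H X)).det ≠ 0 := by
  have h := (LinearMap.BilinForm.nondegenerate_iff_det_ne_zero e).1 (pform_nondeg hD hHL hi)
  have e1 : (LinearMap.BilinForm.toMatrix e (pform W X D i)) =
      gram W (W.cl X D ^ (X.dim - i)) fun j => (e j : W.H X) := by
    ext k l
    rw [LinearMap.BilinForm.toMatrix_apply]
    rfl
  rwa [e1] at h

/-- **The class of the operator which is the power of `L` on the primitive part gives the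
determinant class.** -/
theorem detSq_mem_of_psi (S : Sys W) {D : X.Cycles} (hD : X.IsCyc 1 D)
    (hHL : HardLefschetz W X D) {i n : ℕ} (hi : i ≤ X.dim)
    (e : Basis (Fin (n + 1)) W.K (prim W X D i)) {γ : W.H (X.prod X)} (hγ : γ ∈ S.C (X.prod X))
    (h1 : ∀ a ∈ prim W X D i, W.corr γ a = W.cl X D ^ (X.dim - i) * a)
    (h2 : 2 ≤ i → ∀ b ∈ W.gr X (i - 2), W.corr γ (W.cl X D * b) = 0)
    (h3 : ∀ l, l ≠ i → ∀ a ∈ W.gr X l, W.corr γ a = 0) :
    detSq W n (fun j => W.cl X D ^ (X.dim - i) * (e j : W.H X)) ∈ S.C (dblPw X n) := by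
  have hLh := mulLeft_isHom (W := W) hD
  set c := X.dim - i with hc
  have hB := pform_nondeg hD hHL hi
  set e' := (pform W X D i).dualBasis hB e with he'
  have hdual : ∀ k l, W.tr X (W.cl X D ^ c * (e' k : W.H X) * (e l : W.H X)) =
      if l = k then 1 else 0 := fun k l =>
    LinearMap.BilinForm.apply_dualBasis_left (B := pform W X D i) hB e k l
  have hg : ∀ k, W.cl X D ^ c * (e' k : W.H X) ∈ W.gr X (2 * c + i) := fun k =>
    W.mul_mem (pow_gr hD _) (mem_prim.1 (e' k).2).1
  have hf : ∀ k, W.cl X D ^ c * (e k : W.H X) ∈ W.gr X (2 * c + i) := fun k =>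
    W.mul_mem (pow_gr hD _) (mem_prim.1 (e k).2).1
  have hψ : ∑ k, xp W (W.cl X D ^ c * (e' k : W.H X)) (W.cl X D ^ c * (e k : W.H X)) =
      ((-1 : W.K) ^ ((2 * c + i) * i)) • γ := by
    rw [← sub_eq_zero]
    apply corr_inj
    apply gr_ext (W.isInternal X)
    intro l x hx
    have e1 : ∀ d : W.H (X.prod X), W.corr d x = corrL W X X d x := fun _ => rfl
    rw [LinearMap.zero_apply, e1, map_sub, LinearMap.sub_apply, map_sum, LinearMap.sum_apply,
      map_smul, LinearMap.smul_apply, ← e1, sub_eq_zero]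
    have e2 : ∀ k, (corrL W X X (xp W (W.cl X D ^ c * (e' k : W.H X))
        (W.cl X D ^ c * (e k : W.H X)))) x = ((-1 : W.K) ^ ((2 * c + i) * l) *
          W.tr X (W.cl X D ^ c * (e' k : W.H X) * x)) • (W.cl X D ^ c * (e k : W.H X)) := by
      intro k
      rw [← e1, corr_xp _ (PH.of (hf k)) (PH.of hx)]
    rw [Finset.sum_congr rfl fun k _ => e2 k]
    by_cases hl : l = i
    · subst hl
      have key : ∀ y ∈ prim W X D l, ∑ k, ((-1 : W.K) ^ ((2 * c + l) * l) *
          W.tr X (W.cl X D ^ c * (e' k : W.H X) * y)) • (W.cl X D ^ c * (e k : W.H X)) =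
          ((-1 : W.K) ^ ((2 * c + l) * l)) • W.corr γ y := by
        intro y hy
        obtain ⟨a, ha⟩ : ∃ a : Fin (n + 1) → W.K, y = ∑ j, a j • (e j : W.H X) := by
          refine ⟨fun j => e.repr ⟨y, hy⟩ j, ?_⟩
          have h4 := congrArg (Subtype.val) (e.sum_repr ⟨y, hy⟩)
          refine h4.symm.trans ?_
          rw [AddSubmonoidClass.coe_finsetSum]
          rfl
        have h5 : ∀ k, W.tr X (W.cl X D ^ c * (e' k : W.H X) * y) = a k := by
          intro k
          rw [ha, Finset.mul_sum, map_sum, Finset.sum_eq_single k]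
          · rw [mul_smul_comm, map_smul, hdual, if_pos rfl, smul_eq_mul, mul_one]
          · intro j _ hj
            rw [mul_smul_comm, map_smul, hdual, if_neg hj, smul_zero]
          · intro h; exact absurd (Finset.mem_univ _) h
        rw [h1 y hy]
        simp only [h5, mul_smul]
        rw [← Finset.smul_sum, ha, Finset.mul_sum]
        simp only [mul_smul_comm]
      rcases prim_split hLh W_hbd hHL hi hx with hp | ⟨h2', b, hb, hp⟩
      · exact key x (mem_prim.2 ⟨hx, by rwa [mulLeft_pow] at hp⟩)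
      · have hLb : W.cl X D * b ∈ W.gr X l := by
          have := pow_L_mem hLh hb 1
          rwa [mulLeft_pow, pow_one, show l - 2 + 2 * 1 = l by omega] at this
        rw [mulLeft_pow, LinearMap.mulLeft_apply] at hp
        have h6 := key (x - W.cl X D * b) (mem_prim.2 ⟨Submodule.sub_mem _ hx hLb, hp⟩)
        rw [map_sub (W.corr γ), h2 h2' b hb, sub_zero] at h6
        rw [← h6]
        refine Finset.sum_congr rfl fun k _ => ?_
        rw [mul_sub, map_sub, prim_orth hD (e' k).2, sub_zero]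
    · rw [h3 l hl x hx, smul_zero, Finset.sum_eq_zero]
      intro k _
      rw [W.tr_eq_zero (W.mul_mem (hg k) hx) (by omega), mul_zero, zero_smul]
  have hmem : ∑ k, xp W (W.cl X D ^ c * (e' k : W.H X)) (W.cl X D ^ c * (e k : W.H X)) ∈
      S.C (X.prod X) := by
    rw [hψ]
    exact Submodule.smul_mem _ _ hγ
  have h7 := det_mem S hg hf hmem
  let φ : prim W X D i →ₗ[W.K] W.H X :=
    (LinearMap.mulLeft W.K (W.cl X D ^ c)) ∘ₗ (prim W X D i).subtype
  have h8 : wedge W n (fun k => W.cl X D ^ c * (e' k : W.H X)) =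
      e.det e' • wedge W n (fun k => W.cl X D ^ c * (e k : W.H X)) := wedge_lin e φ e'
  rw [h8, xp_smul_left] at h7
  have h9 := Submodule.smul_mem _ (e.det e')⁻¹ h7
  rw [inv_smul_smul₀ (e.isUnit_det e').ne_zero] at h9
  exact h9

end Pool.Agent.Q55.Det
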