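import Pool.Agent.Y133.Half.PwDefs
import Pool.Agent.H914R2.KDefs
import Pool.Agent.H914R2.HodgeDefs

/-!
# Determinant classes on the powers of a variety: definitions
-/

open CategoryTheory AlgebraicGeometry

universe u v

namespace Pool.Agent.Q55.Det

open Pool.Agent.H914 Pool.Agent.H914.VarClass Pool.Agent.H914.VarClass.Obj
  Pool.Agent.H914.WeilCohomology Pool.Agent.Y133.Half

variable {k : Type u} [Field k] {𝒱 : VarClass k} {ops : CycleOps 𝒱}

/-- The external product `x_0 × x_1 × ⋯ × x_n` in the cohomology of `X^(n+1)`. -/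
noncomputable def tens (W : WeilCohomology.{u, v} ops) {X : 𝒱.Obj} :
    ∀ n, (Fin (n + 1) → W.H X) → W.H (pw X n)
  | 0, x => x 0
  | n + 1, x => W.map (fst (pw X n) X) (tens W n fun j => x j.castSucc) *
      W.map (snd (pw X n) X) (x (Fin.last (n + 1)))

/-- The determinant `∑ sign(σ) e_σ(0) × ⋯ × e_σ(n)` in the cohomology of `X^(n+1)`. -/
noncomputable def wedge (W : WeilCohomology.{u, v} ops) {X : 𝒱.Obj} (n : ℕ)
    (e : Fin (n + 1) → W.H X) : W.H (pw X n) :=
  ∑ σ : Equiv.Perm (Fin (n + 1)), ((Equiv.Perm.sign σ : ℤ) : W.K) • tens W n (e ∘ σ)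

/-- `X^(2n+2)`, as the product of `X^(n+1)` with itself. -/
noncomputable def dblPw (X : 𝒱.Obj) (n : ℕ) : 𝒱.Obj := (pw X n).prod (pw X n)

/-- The external square of the determinant of `e_0, …, e_n`, in the cohomology of `X^(2n+2)`. -/
noncomputable def detSq (W : WeilCohomology.{u, v} ops) {X : 𝒱.Obj} (n : ℕ)
    (e : Fin (n + 1) → W.H X) : W.H (dblPw X n) :=
  W.map (fst (pw X n) (pw X n)) (wedge W n e) * W.map (snd (pw X n) (pw X n)) (wedge W n e)

/-- The divisor `∑ pr_j^* D` on `X^(n+1)`. -/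
noncomputable def powDiv (ops : CycleOps 𝒱) {X : 𝒱.Obj} (D : X.Cycles) : ∀ n, (pw X n).Cycles
  | 0 => D
  | n + 1 => ops.pull (fst (pw X n) X) (powDiv ops D n) + ops.pull (snd (pw X n) X) D

/-- The divisor `∑ pr_j^* D` on `X^(2n+2)`. -/
noncomputable def dblDiv (ops : CycleOps 𝒱) {X : 𝒱.Obj} (D : X.Cycles) (n : ℕ) :
    (dblPw X n).Cycles :=
  boxSum ops (powDiv ops D n)

section Alg

variable {K V : Type*} [Field K] [AddCommGroup V] [Module K V]

/-- The primitive part of degree `i` of a graded space centred in degree `n`, with the Lefschetz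
operator `L`: the kernel of `L ^ (n - i + 1)` on `gr i`. -/
def primPart (gr : ℕ → Submodule K V) (n : ℕ) (L : Module.End K V) (i : ℕ) : Submodule K V :=
  gr i ⊓ LinearMap.ker (L ^ (n - i + 1))

/-- The family `e` is a basis of the subspace `U`. -/
def IsBasisOf (U : Submodule K V) {m : ℕ} (e : Fin m → V) : Prop :=
  LinearIndependent K e ∧ Submodule.span K (Set.range e) = U

end Alg

/-- The primitive cohomology `P^i(X)`, the kernel of the multiplication by `D ^ (dim X - i + 1)` on
`H^i(X)`. -/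
noncomputable def prim (W : WeilCohomology.{u, v} ops) (X : 𝒱.Obj) (D : X.Cycles) (i : ℕ) :
    Submodule W.K (W.H X) :=
  primPart (W.gr X) X.dim (LinearMap.mulLeft W.K (W.cl X D)) i

end Pool.Agent.Q55.Det
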