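import Pool.Agent.Q55.Det.Step
import Pool.Agent.Q55.Hs.Rank
import Pool.Agent.H447R3.AoC

/-!
# The determinant classes and the conjectures A and B
-/

open CategoryTheory AlgebraicGeometry

universe u v

namespace Pool.Agent.Q55.Det

open Module
open Pool.Agent.H914 Pool.Agent.H914.VarClass Pool.Agent.H914.VarClass.Obj
  Pool.Agent.H914.WeilCohomology Pool.Agent.Y133.Half Pool.Agent.H281R3.HT Pool.Agent.W458.MF
  Pool.Agent.W536.RR Pool.Agent.W552

variable {k : Type u} [Field k] {𝒱 : VarClass k} {ops : CycleOps 𝒱}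
  {W : WeilCohomology.{u, v} ops} {X Y Z : 𝒱.Obj}

/-- Frames on the powers. -/
lemma fr_pw {D : X.Cycles} {f : Module.End W.K (W.H X)} (F : Fr W X D f) :
    ∀ n : ℕ, ∃ g, Fr W (pw X n) (powDiv ops D n) g
  | 0 => ⟨f, F⟩
  | n + 1 => by
    obtain ⟨g, G⟩ := fr_pw F n
    exact ⟨_, G.prod F⟩

lemma fr_dblPw {D : X.Cycles} {f : Module.End W.K (W.H X)} (F : Fr W X D f) (n : ℕ) :
    ∃ g, Fr W (dblPw X n) (dblDiv ops D n) g := by
  obtain ⟨g, G⟩ := fr_pw F n
  exact ⟨_, G.prod G⟩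

lemma pw_dim (X : 𝒱.Obj) : ∀ n : ℕ, (pw X n).dim = (n + 1) * X.dim
  | 0 => by rw [zero_add, one_mul]; rfl
  | n + 1 => by
    have h : (pw X (n + 1)).dim = (pw X n).dim + X.dim := dim_prod _ _
    rw [h, pw_dim X n]
    ring

lemma dblPw_dim (X : 𝒱.Obj) (n : ℕ) : (dblPw X n).dim = 2 * ((n + 1) * X.dim) := by
  have h : (dblPw X n).dim = (pw X n).dim + (pw X n).dim := dim_prod _ _
  rw [h, pw_dim, two_mul]

/-- The conjecture A with coefficients. -/
lemma lefschetzA_span {D : X.Cycles} (hA : LefschetzA W X D) {j : ℕ} (hj : 2 * j ≤ X.dim)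
    {y : W.H X} (hy : y ∈ spanCycles W X ((X.dim - j : ℕ) : ℤ)) :
    ∃ y' ∈ spanCycles W X (j : ℤ), W.cl X D ^ (X.dim - 2 * j) * y' = y := by
  induction hy using Submodule.span_induction with
  | mem x hx =>
    obtain ⟨p, hp, z, hz, rfl⟩ := hx
    obtain rfl : p = X.dim - j := by exact_mod_cast hp
    obtain ⟨z', hz', h⟩ := hA j hj z hz
    refine ⟨W.cl X z', Submodule.subset_span ⟨j, rfl, z', hz', rfl⟩, ?_⟩
    rw [← h, cl_divPow, mulLeft_pow]
  | zero => exact ⟨0, Submodule.zero_mem _, mul_zero _⟩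
  | add a b _ _ ha hb =>
    obtain ⟨a', ha', rfl⟩ := ha
    obtain ⟨b', hb', rfl⟩ := hb
    exact ⟨a' + b', Submodule.add_mem _ ha' hb', mul_add _ _ _⟩
  | smul t a _ ha =>
    obtain ⟨a', ha', rfl⟩ := ha
    exact ⟨t • a', Submodule.smul_mem _ _ ha', mul_smul_comm _ _ _⟩

lemma detSq_gr {a n : ℕ} {x : Fin (n + 1) → W.H X} (hx : ∀ j, x j ∈ W.gr X a) :
    detSq W n x ∈ W.gr (dblPw X n) (2 * ((n + 1) * a)) := by
  have h : xp W (wedge W n x) (wedge W n x) ∈ W.gr ((pw X n).prod (pw X n))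
    ((n + 1) * a + (n + 1) * a) := xp_gr (wedge_gr hx) (wedge_gr hx)
  rw [two_mul]
  exact h

/-- The determinant classes are algebraic if `B` holds. -/
theorem det_of_lefschetzB {D : X.Cycles} (hD : X.IsCyc 1 D) (hHL : HardLefschetz W X D)
    (hB : LefschetzB W X D) {i n : ℕ} (hi : i ≤ X.dim)
    (e : Basis (Fin (n + 1)) W.K (prim W X D i)) :
    detSq W n (fun j => (e j : W.H X)) ∈
      spanCycles W (dblPw X n) (((n + 1) * i : ℕ) : ℤ) := by
  have hG := (lefschetzB_iff_good hD hHL).1 hB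
  have h1 := det_top hD hHL hi (fun j hj => hG j (by omega)) e
  obtain ⟨f, F, -⟩ := exists_fr hD hHL hB
  obtain ⟨g, G⟩ := fr_dblPw F n
  have hgr : ∀ j, (e j : W.H X) ∈ W.gr X i := fun j => (mem_prim.1 (e j).2).1
  have hgr' : ∀ j, W.cl X D ^ (X.dim - i) * (e j : W.H X) ∈
      W.gr X (2 * (X.dim - i) + i) := fun j => W.mul_mem (pow_gr hD _) (hgr j)
  have h2 := algSpan_gr h1 (detSq_gr hgr')
  have hi' : (n + 1) * i ≤ (n + 1) * X.dim := Nat.mul_le_mul_left _ hi
  have e1 : (n + 1) * (2 * (X.dim - i) + i) = (dblPw X n).dim - (n + 1) * i := by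
    have : (n + 1) * (X.dim - i) = (n + 1) * X.dim - (n + 1) * i := Nat.mul_sub _ _ _
    rw [dblPw_dim, mul_add, mul_left_comm, this]
    omega
  have hj : 2 * ((n + 1) * i) ≤ (dblPw X n).dim := by rw [dblPw_dim]; omega
  rw [e1] at h2
  obtain ⟨y, hy, hyf⟩ := lefschetzA_span G.lefschetzA hj h2
  obtain ⟨C, hC, hhyp⟩ := detSq_hyp W hD (X.dim - i) n
  have h3 := hhyp (fun j => (e j : W.H X)) (fun j => (mem_prim.1 (e j).2).2)
  have e2 : (dblPw X n).dim - 2 * ((n + 1) * i) = 2 * ((n + 1) * (X.dim - i)) := by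
    have : (n + 1) * (X.dim - i) = (n + 1) * X.dim - (n + 1) * i := Nat.mul_sub _ _ _
    rw [dblPw_dim, this]
    omega
  have hyg : y ∈ W.gr (dblPw X n) (2 * ((n + 1) * i)) := by
    have h5 : ∀ y ∈ spanCycles W (dblPw X n) (((n + 1) * i : ℕ) : ℤ),
        y ∈ W.gr (dblPw X n) (2 * ((n + 1) * i)) := by
      intro y hy
      refine Submodule.span_le.2 ?_ hy
      rintro _ ⟨p, hp, z, hz, rfl⟩
      obtain rfl : p = (n + 1) * i := by exact_mod_cast hp
      exact W.cl_mem hz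
    exact h5 y hy
  have h4 : detSq W n (fun j => (e j : W.H X)) - C • y = 0 := by
    refine (Hs.fr_hardLefschetz G (2 * ((n + 1) * i)) hj).1 _ (Submodule.sub_mem _
      (detSq_gr hgr) (Submodule.smul_mem _ _ hyg)) ?_
    rw [mulLeft_pow, mul_sub, mul_smul_comm, hyf, e2, h3, sub_self]
  rw [sub_eq_zero.1 h4]
  exact Submodule.smul_mem _ _ hy

/-- **The determinant classes and the conjectures A and B.** -/
theorem det_tfae {D : X.Cycles} (hD : X.IsCyc 1 D) (hHL : HardLefschetz W X D) :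
    List.TFAE [LefschetzB W X D,
      ∀ n, LefschetzA W (dblPw X n) (dblDiv ops D n),
      ∀ i < X.dim, ∀ (n : ℕ) (e : Basis (Fin (n + 1)) W.K (prim W X D i)),
        detSq W n (fun j => (e j : W.H X)) ∈ spanCycles W (dblPw X n) (((n + 1) * i : ℕ) : ℤ),
      ∀ i < X.dim, ∀ (n : ℕ) (e : Basis (Fin (n + 1)) W.K (prim W X D i)),
        W.cl (dblPw X n) (dblDiv ops D n) ^ (2 * ((n + 1) * (X.dim - i))) *
            detSq W n (fun j => (e j : W.H X)) ∈
          spanCycles W (dblPw X n) (((n + 1) * i + 2 * ((n + 1) * (X.dim - i)) : ℕ) : ℤ) →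
        detSq W n (fun j => (e j : W.H X)) ∈
          spanCycles W (dblPw X n) (((n + 1) * i : ℕ) : ℤ)] := by
  tfae_have 1 → 2 := by
    intro hB n
    obtain ⟨f, F, -⟩ := exists_fr hD hHL hB
    obtain ⟨g, G⟩ := fr_dblPw F n
    exact G.lefschetzA
  tfae_have 2 → 1 := by
    intro hA
    exact ((H447.a_tfae hD hHL).out 0 1).2 (hA 0)
  tfae_have 1 → 3 := fun hB i hi n e => det_of_lefschetzB hD hHL hB hi.le e
  tfae_have 3 → 4 := fun h i hi n e _ => h i hi n e
  tfae_have 4 → 1 := by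
    intro h
    refine (lefschetzB_iff_good hD hHL).2 fun i => ?_
    induction i using Nat.strong_induction_on with
    | _ i ih =>
      intro hi
      rcases Nat.lt_or_ge i X.dim with hlt | hge
      · refine good_step hD hHL hi (fun j hj => ih j hj (by omega)) fun n e => ?_
        refine span_le_alg (h i hlt n e ?_)
        have h1 := det_top hD hHL hi (fun j hj => ih j hj (by omega)) e
        obtain ⟨C, hC, hhyp⟩ := detSq_hyp W hD (X.dim - i) n
        rw [hhyp (fun j => (e j : W.H X)) (fun j => (mem_prim.1 (e j).2).2)]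
        refine Submodule.smul_mem _ _ (algSpan_gr h1 ?_)
        have h2 := detSq_gr (n := n) (x := fun j => W.cl X D ^ (X.dim - i) * (e j : W.H X))
          (a := 2 * (X.dim - i) + i) fun j => W.mul_mem (pow_gr hD _) (mem_prim.1 (e j).2).1
        have e1 : 2 * ((n + 1) * i + 2 * ((n + 1) * (X.dim - i))) =
            2 * ((n + 1) * (2 * (X.dim - i) + i)) := by ring
        rw [e1]
        exact h2
      · obtain rfl : i = X.dim := by omega
        exact good_dim W X D
  tfae_finish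

/-- The form with families. -/
theorem det_tfae' {D : X.Cycles} (hD : X.IsCyc 1 D) (hHL : HardLefschetz W X D) :
    List.TFAE [LefschetzB W X D,
      ∀ n, LefschetzA W (dblPw X n) (dblDiv ops D n),
      ∀ i < X.dim, ∀ (n : ℕ) (e : Fin (n + 1) → W.H X), IsBasisOf (prim W X D i) e →
        detSq W n e ∈ spanCycles W (dblPw X n) (((n + 1) * i : ℕ) : ℤ),
      ∀ i < X.dim, ∀ (n : ℕ) (e : Fin (n + 1) → W.H X), IsBasisOf (prim W X D i) e →
        W.cl (dblPw X n) (dblDiv ops D n) ^ (2 * ((n + 1) * (X.dim - i))) * detSq W n e ∈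
          spanCycles W (dblPw X n) (((n + 1) * i + 2 * ((n + 1) * (X.dim - i)) : ℕ) : ℤ) →
        detSq W n e ∈ spanCycles W (dblPw X n) (((n + 1) * i : ℕ) : ℤ)] := by
  have h := det_tfae hD hHL
  tfae_have 1 ↔ 2 := by
    have h5 := h.out 0 1
    exact h5
  tfae_have 1 → 3 := by
    intro hB i hi n e he
    obtain ⟨b, hb⟩ := exists_basis he
    have h1 := det_of_lefschetzB hD hHL hB hi.le b
    simp only [hb] at h1
    exact h1
  tfae_have 3 → 4 := fun h i hi n e he _ => h i hi n e he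
  tfae_have 4 → 1 := by
    intro h4
    have h5 := (h.out 3 0).1
    exact h5 fun i hi n b => h4 i hi n _ (isBasisOf b)
  tfae_finish

end Pool.Agent.Q55.Det
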