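import Pool.Agent.Q55.Det.PurM
import Pool.Agent.Q55.Det.MainA
import Pool.Agent.Q55.Galois

/-!
# The determinant classes and the conjecture D
-/

open CategoryTheory AlgebraicGeometry

universe u v

namespace Pool.Agent.Q55.Det

open Module
open Pool.Agent.H914 Pool.Agent.H914.VarClass Pool.Agent.H914.VarClass.Obj
  Pool.Agent.H914.WeilCohomology Pool.Agent.Y133.Half Pool.Agent.H281R3.HT Pool.Agent.W458.MF
  Pool.Agent.W536.RR Pool.Agent.W552

variable {k : Type u} [Field k] {𝒱 : VarClass k} {ops : CycleOps 𝒱}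
  {W : WeilCohomology.{u, v} ops} {X Y Z : 𝒱.Obj}

/-- The two determinants have a nonzero pairing. -/
lemma pair_det {D : X.Cycles} (hD : X.IsCyc 1 D) (hHL : HardLefschetz W X D) {i n : ℕ}
    (hi : i ≤ X.dim) (e : Basis (Fin (n + 1)) W.K (prim W X D i)) :
    W.tr _ (wedge W n (fun j => (e j : W.H X)) *
      wedge W n (fun j => W.cl X D ^ (X.dim - i) * (e j : W.H X))) ≠ 0 := by
  have hg : ∀ j, (e j : W.H X) ∈ W.gr X i := fun j => (mem_prim.1 (e j).2).1
  have hf : ∀ j, W.cl X D ^ (X.dim - i) * (e j : W.H X) ∈ W.gr X (2 * (X.dim - i) + i) :=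
    fun j => W.mul_mem (pow_gr hD _) (hg j)
  rw [pair_wedge hg hf]
  refine mul_ne_zero (by exact_mod_cast (n + 1).factorial_ne_zero) ?_
  obtain ⟨s, hs, hpair⟩ := pair_tens X W i (2 * (X.dim - i) + i) n
  have h1 : W.tr _ (tens W n (fun j => (e j : W.H X)) *
      wedge W n (fun j => W.cl X D ^ (X.dim - i) * (e j : W.H X))) =
      s * (gram W (W.cl X D ^ (X.dim - i)) fun j => (e j : W.H X)).det := by
    rw [wedge, Finset.mul_sum, map_sum, ← Matrix.det_transpose, Matrix.det_apply,
      Finset.mul_sum]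
    refine Finset.sum_congr rfl fun σ _ => ?_
    rw [mul_smul_comm, map_smul, smul_eq_mul,
      hpair _ ((fun j => W.cl X D ^ (X.dim - i) * (e j : W.H X)) ∘ σ) hg (fun j => hf _),
      Units.smul_def, ← Int.cast_smul_eq_zsmul W.K, smul_eq_mul, mul_left_comm]
    have h9 : ∏ j, W.tr X ((e j : W.H X) *
        ((fun j => W.cl X D ^ (X.dim - i) * (e j : W.H X)) ∘ σ) j) =
        ∏ j, (gram W (W.cl X D ^ (X.dim - i)) fun j => (e j : W.H X)).transpose (σ j) j := by
      refine Finset.prod_congr rfl fun j _ => ?_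
      rw [Matrix.transpose_apply, gram, Function.comp_apply,
        ← mul_assoc, PH.even_comm (pow_even (cl_even hD) _)]
    rw [h9]
  rw [h1]
  exact mul_ne_zero hs (gram_det hD hHL hi e)

lemma pair_detSq {D : X.Cycles} (hD : X.IsCyc 1 D) (hHL : HardLefschetz W X D) {i n : ℕ}
    (hi : i ≤ X.dim) (e : Basis (Fin (n + 1)) W.K (prim W X D i)) :
    W.tr _ (detSq W n (fun j => (e j : W.H X)) *
      detSq W n (fun j => W.cl X D ^ (X.dim - i) * (e j : W.H X))) ≠ 0 := by
  have hg : ∀ j, (e j : W.H X) ∈ W.gr X i := fun j => (mem_prim.1 (e j).2).1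
  have hf : ∀ j, W.cl X D ^ (X.dim - i) * (e j : W.H X) ∈ W.gr X (2 * (X.dim - i) + i) :=
    fun j => W.mul_mem (pow_gr hD _) (hg j)
  have h1 : W.tr ((pw X n).prod (pw X n))
      (xp W (wedge W n (fun j => (e j : W.H X))) (wedge W n (fun j => (e j : W.H X))) *
        xp W (wedge W n (fun j => W.cl X D ^ (X.dim - i) * (e j : W.H X)))
          (wedge W n (fun j => W.cl X D ^ (X.dim - i) * (e j : W.H X)))) ≠ 0 := by
    rw [xp_mul _ _ _ _ (PH.of (wedge_gr hg)) (PH.of (wedge_gr hf)), map_smul, tr_xp, smul_eq_mul]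
    exact mul_ne_zero (pow_ne_zero _ (neg_ne_zero.2 one_ne_zero))
      (mul_ne_zero (pair_det hD hHL hi e) (pair_det hD hHL hi e))
  exact h1

lemma span_gr {Y : 𝒱.Obj} {p : ℕ} {y : W.H Y} (hy : y ∈ spanCycles W Y (p : ℤ)) :
    y ∈ W.gr Y (2 * p) := by
  refine Submodule.span_le.2 ?_ hy
  rintro _ ⟨q, hq, z, hz, rfl⟩
  obtain rfl : q = p := by exact_mod_cast hq
  exact W.cl_mem hz

/-- **The determinant classes and the conjecture D.** -/
theorem detD_tfae {D : X.Cycles} (hD : X.IsCyc 1 D) (hHL : HardLefschetz W X D) :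
    List.TFAE [LefschetzB W X D,
      ∀ i < X.dim, ∀ (n : ℕ) (e : Fin (n + 1) → W.H X), IsBasisOf (prim W X D i) e →
        ∃ w ∈ spanCycles W (dblPw X n) (((n + 1) * i : ℕ) : ℤ),
          W.tr _ (w * detSq W n (fun j => W.cl X D ^ (X.dim - i) * e j)) ≠ 0,
      ∀ i < X.dim, ∀ (n : ℕ) (e : Fin (n + 1) → W.H X), IsBasisOf (prim W X D i) e →
        detSq W n (fun j => W.cl X D ^ (X.dim - i) * e j) ∈
          spanCycles W (dblPw X n) (((n + 1) * (2 * (X.dim - i) + i) : ℕ) : ℤ) →
        (∀ w ∈ spanCycles W (dblPw X n) (((n + 1) * i : ℕ) : ℤ),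
          W.tr _ (w * detSq W n (fun j => W.cl X D ^ (X.dim - i) * e j)) = 0) →
        detSq W n (fun j => W.cl X D ^ (X.dim - i) * e j) = 0] := by
  tfae_have 1 → 2 := by
    intro hB i hi n e he
    obtain ⟨b, hb⟩ := exists_basis he
    have h1 := det_of_lefschetzB hD hHL hB hi.le b
    have h2 := pair_detSq hD hHL hi.le b
    simp only [hb] at h1 h2
    exact ⟨_, h1, h2⟩
  tfae_have 2 → 3 := by
    intro h i hi n e he _ h2
    obtain ⟨w, hw, h3⟩ := h i hi n e he
    exact absurd (h2 w hw) h3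
  tfae_have 3 → 1 := by
    intro h
    refine (lefschetzB_iff_good hD hHL).2 fun i => ?_
    induction i using Nat.strong_induction_on with
    | _ i ih =>
      intro hi
      rcases Nat.lt_or_ge i X.dim with hlt | hge
      · have hG : ∀ j < i, Good W X D j := fun j hj => ih j hj (by omega)
        refine good_step hD hHL hi hG fun n b => ?_
        have h1 := det_top hD hHL hi hG b
        have hf : ∀ j, W.cl X D ^ (X.dim - i) * (b j : W.H X) ∈
            W.gr X (2 * (X.dim - i) + i) :=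
          fun j => W.mul_mem (pow_gr hD _) (mem_prim.1 (b j).2).1
        by_contra hcon
        have h2 := h i hlt n _ (isBasisOf b) (algSpan_gr h1 (detSq_gr hf)) fun w hw => by
          by_contra h3
          exact hcon (detSq_of_pairing hD hHL hi hG b (span_le_alg hw) h3)
        have h3 := pair_detSq hD hHL hi b
        rw [h2, mul_zero, map_zero] at h3
        exact h3 rfl
      · obtain rfl : i = X.dim := by omega
        exact good_dim W X D
  tfae_finish

/-- The conjectures B and of Hodge type imply the conjecture D. -/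
lemma homEqNum_of_fr {D : X.Cycles} {f : Module.End W.K (W.H X)} (F : Fr W X D f)
    (hH : HodgeType W X D) : HomEqNum W X := by
  intro j hj z hz hnum
  by_contra h0
  have hx : W.cl X z ∈ algClasses W X j := ⟨z, hz, rfl⟩
  obtain ⟨q, hq, h1⟩ := F.bf_pos hH (AS.of hx) h0
  obtain ⟨w, hw, hw'⟩ := F.w_alg hj hx
  rw [bf_apply, st_apply (W.cl_mem hz), mul_smul_comm, map_smul, ← hw', ← W.cl_mul,
    W.tr_cl (by have := ops.mul_mem hz hw; rwa [show j + (X.dim - j) = X.dim by omega] at this),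
    hnum w hw] at h1
  rw [Rat.cast_zero, smul_zero] at h1
  have h2 : (q : W.K) ≠ 0 := by exact_mod_cast hq.ne'
  exact h2 h1.symm

/-- **The conjecture D for all powers.** -/
theorem homEqNum_iff_lefschetzB {D : X.Cycles} (hD : X.IsCyc 1 D) (hHL : HardLefschetz W X D)
    (hH : ∀ n, HodgeType W (pw X n) (powDiv ops D n)) :
    LefschetzB W X D ↔ ∀ n, HomEqNum W (pw X n) := by
  constructor
  · intro hB n
    obtain ⟨f, F, -⟩ := exists_fr hD hHL hB
    obtain ⟨g, G⟩ := fr_pw F n
    exact homEqNum_of_fr G (hH n)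
  · intro h
    exact lefschetzB_of_square hD hHL (homEqNum_square_pw h 0)

end Pool.Agent.Q55.Det
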