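import Pool.Agent.Q55.Det.Step
import Pool.Agent.Y133.Half.Iso2
import Pool.Agent.Y133.Half.Num
import Pool.Agent.Y133.Half.CS

/-!
# Purification of a class on a power of a variety
-/

open CategoryTheory AlgebraicGeometry

universe u v

namespace Pool.Agent.Q55.Det

open Module
open Pool.Agent.H914 Pool.Agent.H914.VarClass Pool.Agent.H914.VarClass.Obj
  Pool.Agent.H914.WeilCohomology Pool.Agent.Y133.Half Pool.Agent.H281R3.HT Pool.Agent.W458.MF
  Pool.Agent.W536.RR

section Abs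

open Finset

variable {K : Type*} [Field K] [CharZero K] {V : Type*} [AddCommGroup V] [Module K V]
  {gr : ℕ → Submodule K V} {n : ℕ} {L : Module.End K V} {R : ℤ → Module.End K V → Prop}

/-- The operator which vanishes in the degrees greater than `2 n - i` and projects to the image of
the primitive part in the degree `2 n - i`. -/
theorem exists_pproj' (hR : OpAlg gr R) (h : DirectSum.IsInternal gr)
    (hbd : ∀ i, 2 * n + 1 ≤ i → gr i = ⊥)
    (hL : R 1 L) (hHL : HardLef gr n L) {i : ℕ} (hi : i ≤ n)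
    (hθ : ∀ j < i, HasInv R gr n L j) :
    ∃ E, R 0 E ∧ (∀ a ∈ gr i, (L ^ (n - i + 1)) a = 0 → E ((L ^ (n - i)) a) = (L ^ (n - i)) a) ∧
      (2 ≤ i → ∀ b ∈ gr (i - 2), E ((L ^ (n - i + 1)) b) = 0) ∧
      ∀ l, 2 * n - i < l → ∀ a ∈ gr l, E a = 0 := by
  have hLh : IsHom gr 2 L := by simpa using hR.hom hL
  have hp := proj_low hR h hbd hL hHL hi hθ
  have hBR : R 0 (trB h n i) := trB_mem hR h fun j hj => (hp j hj).2
  by_cases h2 : 2 ≤ i
  · obtain ⟨θ, hθR, hθ'⟩ := hθ (i - 2) (by omega)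
    set c := n - i with hc
    have e2 : n - (i - 2) = c + 2 := by omega
    rw [e2] at hθR hθ'
    refine ⟨(1 - L ^ (c + 1) * θ * L) * trB h n i, ?_, ?_, ?_, ?_⟩
    · refine hR.cast (hR.mul (hR.sub hR.one (hR.cast (hR.mul (hR.mul (hR.pow hL (c + 1)) hθR) hL)
        ?_)) hBR) (zero_add _)
      push_cast
      ring
    · intro a ha hpa
      rw [Module.End.mul_apply, trB_low h hi (by omega) (pow_L_mem hLh ha c),
        LinearMap.sub_apply, Module.End.mul_apply,
        ← Module.End.mul_apply L, ← pow_succ', hpa, map_zero, Module.End.one_apply, sub_zero]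
    · intro _ b hb
      have e3 : L ((L ^ (c + 1)) b) = (L ^ (c + 2)) b := by
        rw [← Module.End.mul_apply, ← pow_succ']
      rw [Module.End.mul_apply, trB_low h hi (by omega) (pow_L_mem hLh hb (c + 1)),
        LinearMap.sub_apply, Module.End.mul_apply, Module.End.mul_apply, e3, hθ' b hb,
        Module.End.one_apply, sub_self]
    · intro l hl a ha
      rw [Module.End.mul_apply, trB_high h hbd hi hl ha, map_zero]
  · exact ⟨trB h n i, hBR, fun a ha _ => trB_low h hi (by omega) (pow_L_mem hLh ha _),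
      fun h => absurd h h2, fun l hl a ha => trB_high h hbd hi hl ha⟩

end Abs

variable {k : Type u} [Field k] {𝒱 : VarClass k} {ops : CycleOps 𝒱}
  {W : WeilCohomology.{u, v} ops} {X Y Z : 𝒱.Obj}

/-- The classes of degree at least `m`. -/
def Ge (W : WeilCohomology.{u, v} ops) (Y : 𝒱.Obj) (m : ℕ) : Submodule W.K (W.H Y) :=
  ⨆ (l : ℕ) (_ : m ≤ l), W.gr Y l

lemma Ge.of {m l : ℕ} (h : m ≤ l) {x : W.H Y} (hx : x ∈ W.gr Y l) : x ∈ Ge W Y m :=
  Submodule.mem_iSup_of_mem l (Submodule.mem_iSup_of_mem h hx)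

lemma Ge.ind {m : ℕ} {p : W.H Y → Prop} (h1 : ∀ l, m ≤ l → ∀ x ∈ W.gr Y l, p x)
    (h0 : p 0) (h2 : ∀ x y, p x → p y → p (x + y)) {x : W.H Y} (hx : x ∈ Ge W Y m) : p x := by
  unfold Ge at hx
  refine Submodule.iSup_induction _ (motive := p) hx (fun i x hx => ?_) h0 h2
  refine Submodule.iSup_induction _ (motive := p) hx (fun hi x hx => h1 i hi x hx) h0 h2

lemma Ge.mono {m m' : ℕ} (h : m' ≤ m) {x : W.H Y} (hx : x ∈ Ge W Y m) : x ∈ Ge W Y m' :=
  Ge.ind (p := fun x => x ∈ Ge W Y m') (fun l hl x hx => Ge.of (h.trans hl) hx)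
    (Submodule.zero_mem _) (fun _ _ => Submodule.add_mem _) hx

lemma Ge.ext {m m' : ℕ} {x : W.H Y} {y : W.H Z} (hx : x ∈ Ge W Y m) (hy : y ∈ Ge W Z m') :
    xp W x y ∈ Ge W (Y.prod Z) (m + m') := by
  refine Ge.ind (p := fun x => xp W x y ∈ Ge W (Y.prod Z) (m + m')) ?_ ?_ ?_ hx
  · intro l hl x hx
    refine Ge.ind (p := fun y => xp W x y ∈ Ge W (Y.prod Z) (m + m')) ?_ ?_ ?_ hy
    · intro l' hl' y hy
      exact Ge.of (by omega) (xp_gr hx hy)
    · rw [xp_def, map_zero, mul_zero]; exact Submodule.zero_mem _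
    · intro a b ha hb; rw [xp_add_right]; exact Submodule.add_mem _ ha hb
  · rw [xp_def, map_zero, zero_mul]; exact Submodule.zero_mem _
  · intro a b ha hb; rw [xp_add_left]; exact Submodule.add_mem _ ha hb

lemma Ge.proj {m : ℕ} {x : W.H Y} (hx : x ∈ Ge W Y (m + 1)) :
    H914.proj (W.isInternal Y) m x = 0 := by
  refine Ge.ind (p := fun x => H914.proj (W.isInternal Y) m x = 0) ?_ ?_ ?_ hx
  · intro l hl x hx; exact proj_ne _ hx (by omega)
  · exact map_zero _
  · intro a b ha hb; rw [map_add, ha, hb, add_zero]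

/-- The external product of two subspaces. -/
noncomputable def bt (T : Submodule W.K (W.H Y)) (T' : Submodule W.K (W.H Z)) :
    Submodule W.K (W.H (Y.prod Z)) :=
  Submodule.span W.K {c | ∃ a ∈ T, ∃ b ∈ T', xp W a b = c}

lemma bt.of {T : Submodule W.K (W.H Y)} {T' : Submodule W.K (W.H Z)} {a : W.H Y} {b : W.H Z}
    (ha : a ∈ T) (hb : b ∈ T') : xp W a b ∈ bt T T' :=
  Submodule.subset_span ⟨a, ha, b, hb, rfl⟩

/-- The values of `A` are in the sum of `T` and the classes of degree greater than `m`. -/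
structure Pur (W : WeilCohomology.{u, v} ops) (Y : 𝒱.Obj) (T : Submodule W.K (W.H Y)) (m : ℕ)
    (A : Module.End W.K (W.H Y)) : Prop where
  le : T ≤ W.gr Y m
  mem : ∀ x, A x ∈ T ⊔ Ge W Y (m + 1)

lemma Pur.ext {T : Submodule W.K (W.H Y)} {T' : Submodule W.K (W.H Z)} {m m' : ℕ}
    {A : Module.End W.K (W.H Y)} {A' : Module.End W.K (W.H Z)} (h : Pur W Y T m A)
    (h' : Pur W Z T' m' A') : Pur W (Y.prod Z) (bt T T') (m + m') (extOp W A A') where
  le := by
    refine Submodule.span_le.2 ?_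
    rintro _ ⟨a, ha, b, hb, rfl⟩
    exact xp_gr (h.le ha) (h'.le hb)
  mem x := by
    refine xp_induction (p := fun x => extOp W A A' x ∈ bt T T' ⊔ Ge W (Y.prod Z) (m + m' + 1))
      ?_ ?_ x
    · intro a b ha hb; rw [map_add]; exact Submodule.add_mem _ ha hb
    · intro i j a _ b _
      rw [extOp_xp]
      obtain ⟨t, ht, s, hs, e⟩ := Submodule.mem_sup.1 (h.mem a)
      obtain ⟨t', ht', s', hs', e'⟩ := Submodule.mem_sup.1 (h'.mem b)
      have hb' : A' b ∈ Ge W Z m' := by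
        rw [← e']
        exact Submodule.add_mem _ (Ge.of le_rfl (h'.le ht')) (Ge.mono (by omega) hs')
      have e3 : xp W (A a) (A' b) =
          xp W t t' + (xp W t s' + xp W s (A' b)) := by
        rw [← e, xp_add_left, ← e', xp_add_right, xp_add_right]
        abel
      rw [e3]
      refine Submodule.add_mem_sup (bt.of ht ht') (Submodule.add_mem _ ?_ ?_)
      · have h5 : xp W t s' ∈ Ge W (Y.prod Z) (m + (m' + 1)) :=
          Ge.ext (Ge.of le_rfl (h.le ht)) hs'
        exact h5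
      · have := Ge.ext hs hb'
        rwa [show m + 1 + m' = m + m' + 1 by ring] at this

lemma Pur.proj {T : Submodule W.K (W.H Y)} {m : ℕ} {A : Module.End W.K (W.H Y)}
    (h : Pur W Y T m A) (x : W.H Y) : H914.proj (W.isInternal Y) m (A x) ∈ T := by
  obtain ⟨t, ht, s, hs, e⟩ := Submodule.mem_sup.1 (h.mem x)
  rw [← e, map_add, Ge.proj hs, add_zero, proj_same _ (h.le ht)]
  exact ht

/-- The external powers of a subspace. -/
noncomputable def TT (U : Submodule W.K (W.H X)) : ∀ n : ℕ, Submodule W.K (W.H (pw X n))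
  | 0 => U
  | n + 1 => bt (Y := pw X n) (Z := X) (TT U n) U

/-- The external powers of an operator. -/
noncomputable def EE (E : Module.End W.K (W.H X)) : ∀ n : ℕ, Module.End W.K (W.H (pw X n))
  | 0 => E
  | n + 1 => extOp W (Y := pw X n) (Z := X) (EE E n) E

lemma EE_pur {U : Submodule W.K (W.H X)} {i : ℕ} {E : Module.End W.K (W.H X)}
    (h : Pur W X U i E) : ∀ n : ℕ, Pur W (pw X n) (TT U n) ((n + 1) * i) (EE E n)
  | 0 => by rw [zero_add, one_mul]; exact h
  | n + 1 => by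
    have h1 := (EE_pur h n).ext h
    have e : (n + 1 + 1) * i = (n + 1) * i + i := by ring
    rw [e]
    exact h1

lemma EE_mem {S : Sys W} {E : Module.End W.K (W.H X)} (h : E ∈ S.Op X X) :
    ∀ n : ℕ, EE E n ∈ S.Op (pw X n) (pw X n)
  | 0 => h
  | n + 1 => Sys.Op.ext (EE_mem h n) h

lemma EE_ev {S : Sys W} {E : Module.End W.K (W.H X)} (h : E ∈ S.Op X X) (n : ℕ) :
    Ev W (EE E n) := Sys.Op.ev (EE_mem h n)

lemma EE_adj {S : Sys W} {E E' : Module.End W.K (W.H X)} (h : E ∈ S.Op X X) (h' : E' ∈ S.Op X X)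
    (ha : Adj W E E') : ∀ n : ℕ, Adj W (EE E n) (EE E' n)
  | 0 => ha
  | n + 1 => Adj.extOp (EE_adj h h' ha n) ha (EE_ev h' n) (Sys.Op.ev h)

lemma EE_tens {E : Module.End W.K (W.H X)} : ∀ (n : ℕ) {x : Fin (n + 1) → W.H X},
    (∀ j, E (x j) = x j) → EE E n (tens W n x) = tens W n x
  | 0, x, hx => hx 0
  | n + 1, x, hx => by
    have h1 := EE_tens n (x := fun j => x j.castSucc) fun j => hx _
    have h2 : EE E (n + 1) (tens W (n + 1) x) = extOp W (Y := pw X n) (Z := X) (EE E n) E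
      (xp W (tens W n fun j => x j.castSucc) (x (Fin.last (n + 1)))) := rfl
    rw [h2, extOp_xp, h1, hx]
    rfl

lemma EE_wedge {E : Module.End W.K (W.H X)} (n : ℕ) {x : Fin (n + 1) → W.H X}
    (hx : ∀ j, E (x j) = x j) : EE E n (wedge W n x) = wedge W n x := by
  rw [wedge, map_sum]
  refine Finset.sum_congr rfl fun σ _ => ?_
  rw [map_smul, EE_tens n (x := x ∘ σ) fun j => hx _]

/-- The span of the external products of elements of `U`. -/
lemma TT_le (U : Submodule W.K (W.H X)) : ∀ n : ℕ, TT U n ≤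
    Submodule.span W.K {c | ∃ x : Fin (n + 1) → W.H X, (∀ j, x j ∈ U) ∧ tens W n x = c}
  | 0 => fun a ha => Submodule.subset_span ⟨fun _ => a, fun _ => ha, rfl⟩
  | n + 1 => by
    refine Submodule.span_le.2 ?_
    rintro _ ⟨a, ha, b, hb, rfl⟩
    have h1 := TT_le U n ha
    refine Submodule.span_induction (p := fun a _ => xp W (X := pw X n) (Y := X) a b ∈
      Submodule.span W.K {c | ∃ x : Fin (n + 2) → W.H X, (∀ j, x j ∈ U) ∧
        tens W (n + 1) x = c}) ?_ ?_ ?_ ?_ h1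
    · rintro _ ⟨x, hx, rfl⟩
      refine Submodule.subset_span ⟨Fin.snoc (α := fun _ => W.H X) x b, fun j => ?_, ?_⟩
      · refine Fin.lastCases ?_ (fun j => ?_) j
        · rw [Fin.snoc_last]; exact hb
        · rw [Fin.snoc_castSucc]; exact hx j
      · rw [tens_succ]
        simp only [Fin.snoc_castSucc, Fin.snoc_last]
        try rfl
    · rw [xp_def, map_zero, zero_mul]; exact Submodule.zero_mem _
    · intro a a' _ _ ha ha'; rw [xp_add_left]; exact Submodule.add_mem _ ha ha'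
    · intro t a _ ha; rw [xp_smul_left]; exact Submodule.smul_mem _ _ ha

/-- The antisymmetrization. -/
noncomputable def alt (W : WeilCohomology.{u, v} ops) (X : 𝒱.Obj) (n a : ℕ) :
    Module.End W.K (W.H (pw X n)) :=
  ∑ σ : Equiv.Perm (Fin (n + 1)), (((Equiv.Perm.sign σ : ℤ) : W.K) * (chi a σ : W.K)) •
    (W.map (tau X n σ)).toLinearMap

lemma alt_mem (S : Sys W) (n a : ℕ) : alt W X n a ∈ S.Op (pw X n) (pw X n) :=
  Submodule.sum_mem _ fun _ _ => Submodule.smul_mem _ _ (Sys.Op.map _)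

lemma alt_apply {a n : ℕ} {y : Fin (n + 1) → W.H X} (hy : ∀ j, y j ∈ W.gr X a) :
    alt W X n a (tens W n y) = wedge W n y := by
  rw [alt, LinearMap.sum_apply, ← alt_tens hy]
  rfl

/-- The pairing of two determinants. -/
lemma pair_wedge {a b n : ℕ} {x y : Fin (n + 1) → W.H X} (hx : ∀ j, x j ∈ W.gr X a)
    (hy : ∀ j, y j ∈ W.gr X b) : W.tr _ (wedge W n x * wedge W n y) =
      ((n + 1).factorial : W.K) * W.tr _ (tens W n x * wedge W n y) := by
  obtain ⟨s, _, hpair⟩ := pair_tens X W a b n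
  have h1 : ∀ σ : Equiv.Perm (Fin (n + 1)),
      ((Equiv.Perm.sign σ : ℤ) : W.K) * W.tr _ (tens W n (x ∘ σ) * wedge W n y) =
        W.tr _ (tens W n x * wedge W n y) := by
    intro σ
    rw [wedge, Finset.mul_sum, Finset.mul_sum, map_sum, map_sum, Finset.mul_sum,
      ← Equiv.sum_comp (Equiv.mulRight σ)]
    refine Finset.sum_congr rfl fun ρ _ => ?_
    rw [mul_smul_comm, mul_smul_comm, map_smul, map_smul, smul_eq_mul, smul_eq_mul,
      Equiv.coe_mulRight, Equiv.Perm.sign_mul,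
      hpair (x ∘ σ) (y ∘ ⇑(ρ * σ)) (fun j => hx _) (fun j => hy _),
      hpair x (y ∘ ρ) (fun j => hx _) (fun j => hy _)]
    have h2 : ∏ j, W.tr X ((x ∘ σ) j * (y ∘ ⇑(ρ * σ)) j) = ∏ j, W.tr X (x j * (y ∘ ρ) j) :=
      Equiv.prod_comp σ fun j => W.tr X (x j * (y ∘ ρ) j)
    rw [h2]
    have h7 : ((Equiv.Perm.sign σ : ℤ) : W.K) * ((Equiv.Perm.sign σ : ℤ) : W.K) = 1 := by
      rcases Int.units_eq_one_or (Equiv.Perm.sign σ) with h | h <;> rw [h] <;> norm_num
    push_cast
    calc _ = (((Equiv.Perm.sign σ : ℤ) : W.K) * ((Equiv.Perm.sign σ : ℤ) : W.K)) *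
          (((Equiv.Perm.sign ρ : ℤ) : W.K) * (s * ∏ j, W.tr X (x j * (y ∘ ρ) j))) := by ring
      _ = _ := by rw [h7, one_mul]
  have h3 : W.tr _ (wedge W n x * wedge W n y) = ∑ σ : Equiv.Perm (Fin (n + 1)),
      ((Equiv.Perm.sign σ : ℤ) : W.K) * W.tr _ (tens W n (x ∘ σ) * wedge W n y) := by
    conv_lhs => rw [wedge, Finset.sum_mul, map_sum]
    refine Finset.sum_congr rfl fun σ _ => ?_
    rw [smul_mul_assoc, map_smul, smul_eq_mul]
  rw [h3, Finset.sum_congr rfl fun σ _ => h1 σ, Finset.sum_const, Finset.card_univ,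
    Fintype.card_perm, Fintype.card_fin, nsmul_eq_mul]

end Pool.Agent.Q55.Det
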