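import Pool.Agent.Q55.Det.Pur

/-!
# A class with a nonzero pairing with the top determinant class
-/

open CategoryTheory AlgebraicGeometry

universe u v

namespace Pool.Agent.Q55.Det

open Module
open Pool.Agent.H914 Pool.Agent.H914.VarClass Pool.Agent.H914.VarClass.Obj
  Pool.Agent.H914.WeilCohomology Pool.Agent.Y133.Half Pool.Agent.H281R3.HT Pool.Agent.W458.MF
  Pool.Agent.W536.RR

variable {k : Type u} [Field k] {𝒱 : VarClass k} {ops : CycleOps 𝒱}
  {W : WeilCohomology.{u, v} ops} {X Y Z : 𝒱.Obj}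

lemma algSpan_proj {Y : 𝒱.Obj} {γ : W.H Y} (hγ : γ ∈ algSpan W Y) (m : ℕ) :
    H914.proj (W.isInternal Y) m γ ∈ algSpan W Y := by
  refine algSpan_induction (p := fun γ => H914.proj (W.isInternal Y) m γ ∈ algSpan W Y)
    ?_ ?_ ?_ ?_ hγ
  · rw [map_zero]; exact Submodule.zero_mem _
  · intro a b ha hb; rw [map_add]; exact Submodule.add_mem _ ha hb
  · intro t a ha; rw [map_smul]; exact Submodule.smul_mem _ _ ha
  · intro j z hz
    by_cases hj : 2 * j = m
    · rw [proj_same _ (hj ▸ W.cl_mem hz)]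
      exact cl_alg hz
    · rw [proj_ne _ (W.cl_mem hz) hj]
      exact Submodule.zero_mem _

lemma tr_proj {m m' : ℕ} (hm : m + m' = 2 * Y.dim) (x : W.H Y) {y : W.H Y}
    (hy : y ∈ W.gr Y m') : W.tr Y (H914.proj (W.isInternal Y) m x * y) = W.tr Y (x * y) := by
  refine gr_induction (W.isInternal Y) (p := fun x =>
    W.tr Y (H914.proj (W.isInternal Y) m x * y) = W.tr Y (x * y)) ?_ ?_ x
  · intro i a ha
    by_cases hi : i = m
    · subst hi
      rw [proj_same _ ha]
    · rw [proj_ne _ ha hi, zero_mul, map_zero]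
      exact (W.tr_eq_zero (W.mul_mem ha hy) (by omega)).symm
  · intro a b ha hb
    rw [map_add, add_mul, map_add, ha, hb, add_mul, map_add]

lemma hom0_gr {E : Module.End W.K (W.H X)} (h : KR W X 0 E) {l : ℕ} {x : W.H X}
    (hx : x ∈ W.gr X l) : E x ∈ W.gr X l := by
  have h1 := (KR.opAlg W X).hom h l x (by rw [grZ_natCast]; exact hx)
  rw [mul_zero, add_zero, grZ_natCast] at h1
  exact h1

/-- The operators of the purification. -/
lemma exists_EE' {D : X.Cycles} (hD : X.IsCyc 1 D) (hHL : HardLefschetz W X D) {i : ℕ}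
    (hi : i ≤ X.dim) (hG : ∀ j < i, Good W X D j) :
    ∃ E E' : Module.End W.K (W.H X), E ∈ (algSys W).Op X X ∧ E' ∈ (algSys W).Op X X ∧
      Adj W E E' ∧ (∀ a ∈ prim W X D i,
        E' (W.cl X D ^ (X.dim - i) * a) = W.cl X D ^ (X.dim - i) * a) ∧
      Pur W X (prim W X D i) i E := by
  obtain ⟨E', hE', h1, h2, h3⟩ :=
    exists_pproj' (KR.opAlg W X) (W.isInternal X) W_hbd (KR.L hD) hHL hi hG
  obtain ⟨E, hE, hadj⟩ := KOp.exists_adjoint (mem_KS_iff.1 hE')
  have hER : KR W X 0 E := mem_KS_iff.2 (KOp.cast hE (by ring))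
  have hEo : E ∈ (algSys W).Op X X := by
    obtain ⟨γ, hγ, rfl⟩ := hER.alg
    exact Sys.Op.corr hγ
  have hEo' : E' ∈ (algSys W).Op X X := by
    obtain ⟨γ, hγ, rfl⟩ := hE'.alg
    exact Sys.Op.corr hγ
  have ha : Adj W E E' := Adj.symm (u := E') (u' := E) hadj (Sys.Op.ev hEo') (Sys.Op.ev hEo)
  refine ⟨E, E', hEo, hEo', ha, ?_, ⟨fun x hx => (mem_prim.1 hx).1, fun x => ?_⟩⟩
  · intro a hpa
    obtain ⟨ha1, ha2⟩ := mem_prim.1 hpa
    have h4 := h1 a ha1 (by rw [mulLeft_pow]; exact ha2)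
    rw [mulLeft_pow] at h4
    exact h4
  · refine gr_induction (W.isInternal X) (p := fun x => E x ∈ prim W X D i ⊔ Ge W X (i + 1))
      ?_ ?_ x
    swap
    · intro a b ha hb; rw [map_add]; exact Submodule.add_mem _ ha hb
    intro l x hx
    rcases Nat.lt_trichotomy l i with hl | hl | hl
    · have h0 : E x = 0 := by
        apply W.nondeg
        intro b
        refine gr_induction (W.isInternal X) (p := fun b => W.tr X (E x * b) = 0) ?_ ?_ b
        · intro l' b hb
          rw [ha]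
          by_cases hll : l + l' = 2 * X.dim
          · rw [h3 l' (by omega) b hb, mul_zero, map_zero]
          · exact W.tr_eq_zero (W.mul_mem hx (hom0_gr hE' hb)) hll
        · intro a b ha hb; rw [mul_add, map_add, ha, hb, add_zero]
      rw [h0]
      exact Submodule.zero_mem _
    · subst hl
      refine Submodule.mem_sup_left (mem_prim.2 ⟨hom0_gr hER hx, ?_⟩)
      apply W.nondeg
      intro b
      refine gr_induction (W.isInternal X) (p := fun b =>
        W.tr X (W.cl X D ^ (X.dim - l + 1) * E x * b) = 0) ?_ ?_ b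
      · intro l' b hb
        rw [PH.even_comm (pow_even (cl_even hD) _), mul_assoc, ha]
        by_cases hll : l + (2 * (X.dim - l + 1) + l') = 2 * X.dim
        · have h4 : l' = l - 2 := by omega
          subst h4
          have h5 := h2 (by omega) b hb
          rw [mulLeft_pow] at h5
          rw [h5, mul_zero, map_zero]
        · exact W.tr_eq_zero (W.mul_mem hx (hom0_gr hE' (W.mul_mem (pow_gr hD _) hb))) hll
      · intro a b ha hb; rw [mul_add, map_add, ha, hb, add_zero]
    · exact Submodule.mem_sup_right (Ge.of (by omega) (hom0_gr hER hx))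

/-- The antisymmetrization on the external powers of the primitive part. -/
lemma alt_TT {D : X.Cycles} {i n : ℕ} (e : Basis (Fin (n + 1)) W.K (prim W X D i))
    {a : W.H (pw X n)} (ha : a ∈ TT (prim W X D i) n) :
    ∃ r : W.K, alt W X n i a = r • wedge W n (fun j => (e j : W.H X)) := by
  refine Submodule.span_induction (p := fun a _ => ∃ r : W.K, alt W X n i a =
    r • wedge W n (fun j => (e j : W.H X))) ?_ ?_ ?_ ?_ (TT_le _ n ha)
  · rintro _ ⟨x, hx, rfl⟩
    refine ⟨e.det fun j => ⟨x j, hx j⟩, ?_⟩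
    rw [alt_apply fun j => (mem_prim.1 (hx j)).1]
    exact wedge_lin e (prim W X D i).subtype fun j => ⟨x j, hx j⟩
  · exact ⟨0, by rw [map_zero, zero_smul]⟩
  · rintro a b _ _ ⟨r, hr⟩ ⟨s, hs⟩
    exact ⟨r + s, by rw [map_add, hr, hs, add_smul]⟩
  · rintro t a _ ⟨r, hr⟩
    exact ⟨t * r, by rw [map_smul, hr, mul_smul]⟩

lemma tr_alt {D : X.Cycles} {i b n : ℕ} {y : Fin (n + 1) → W.H X} (hy : ∀ j, y j ∈ W.gr X b)
    {a : W.H (pw X n)} (ha : a ∈ TT (prim W X D i) n) :
    W.tr _ (alt W X n i a * wedge W n y) =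
      ((n + 1).factorial : W.K) * W.tr _ (a * wedge W n y) := by
  refine Submodule.span_induction (p := fun a _ => W.tr _ (alt W X n i a * wedge W n y) =
      ((n + 1).factorial : W.K) * W.tr _ (a * wedge W n y)) ?_ ?_ ?_ ?_ (TT_le _ n ha)
  · rintro _ ⟨x, hx, rfl⟩
    rw [alt_apply fun j => (mem_prim.1 (hx j)).1,
      pair_wedge (fun j => (mem_prim.1 (hx j)).1) hy]
  · rw [map_zero, zero_mul, map_zero, mul_zero]
  · intro a b _ _ ha hb
    rw [map_add, add_mul, map_add, ha, hb, add_mul, map_add, mul_add]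
  · intro t a _ ha
    rw [map_smul, smul_mul_assoc, map_smul, ha, smul_mul_assoc, map_smul, smul_eq_mul,
      smul_eq_mul]
    ring

/-- **An algebraic class with a nonzero pairing with the top determinant class makes the
determinant class algebraic.** -/
theorem detSq_of_pairing' {D : X.Cycles} (hD : X.IsCyc 1 D) (hHL : HardLefschetz W X D) {i n : ℕ}
    (hi : i ≤ X.dim) (hG : ∀ j < i, Good W X D j) (e : Basis (Fin (n + 1)) W.K (prim W X D i))
    {w : W.H ((pw X n).prod (pw X n))} (hw : w ∈ algSpan W ((pw X n).prod (pw X n)))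
    (h0 : W.tr _ (w * xp W (wedge W n (fun j => W.cl X D ^ (X.dim - i) * (e j : W.H X)))
      (wedge W n (fun j => W.cl X D ^ (X.dim - i) * (e j : W.H X)))) ≠ 0) :
    xp W (wedge W n (fun j => (e j : W.H X))) (wedge W n (fun j => (e j : W.H X))) ∈
      algSpan W ((pw X n).prod (pw X n)) := by
  obtain ⟨E, E', hE, hE', hadj, hfix, hpur⟩ := exists_EE' hD hHL hi hG
  set f : Fin (n + 1) → W.H X := fun j => W.cl X D ^ (X.dim - i) * (e j : W.H X) with hf
  have hfg : ∀ j, f j ∈ W.gr X (2 * (X.dim - i) + i) := fun j =>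
    W.mul_mem (pow_gr hD _) (mem_prim.1 (e j).2).1
  have hP := (EE_pur hpur n).ext (EE_pur hpur n)
  set w₀ : W.H ((pw X n).prod (pw X n)) := extOp W (EE E n) (EE E n) w with hw₀
  have hw₀m : w₀ ∈ algSpan W ((pw X n).prod (pw X n)) :=
    Sys.Op.apply (T := algSys W) (fun _ => le_rfl)
      (Sys.Op.ext (EE_mem hE n) (EE_mem hE n)) hw
  set w₁ : W.H ((pw X n).prod (pw X n)) :=
    H914.proj (W.isInternal _) ((n + 1) * i + (n + 1) * i) w₀ with hw₁
  have hw₁m : w₁ ∈ algSpan W ((pw X n).prod (pw X n)) := algSpan_proj hw₀m _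
  have hw₁b : w₁ ∈ bt (TT (prim W X D i) n) (TT (prim W X D i) n) := hP.proj w
  set w₂ : W.H ((pw X n).prod (pw X n)) := extOp W (alt W X n i) (alt W X n i) w₁ with hw₂
  have hw₂m : w₂ ∈ algSpan W ((pw X n).prod (pw X n)) :=
    Sys.Op.apply (T := algSys W) (fun _ => le_rfl)
      (Sys.Op.ext (alt_mem _ n i) (alt_mem _ n i)) hw₁m
  set wf := wedge W n f with hwf
  have hwfg : wf ∈ W.gr (pw X n) ((n + 1) * (2 * (X.dim - i) + i)) := wedge_gr hfg
  set we := wedge W n (fun j => (e j : W.H X)) with hwe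
  have hweg : we ∈ W.gr (pw X n) ((n + 1) * i) := wedge_gr fun j => (mem_prim.1 (e j).2).1
  have hTle : ∀ a ∈ TT (prim W X D i) n, a ∈ W.gr (pw X n) ((n + 1) * i) :=
    fun a ha => (EE_pur hpur n).le ha
  -- the result is a multiple of the determinant class
  have h1 : ∃ r : W.K, w₂ = r • xp W we we := by
    rw [hw₂]
    clear_value w₁
    refine Submodule.span_induction (p := fun w₁ _ => ∃ r : W.K,
      extOp W (alt W X n i) (alt W X n i) w₁ = r • xp W we we) ?_ ?_ ?_ ?_ hw₁b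
    · rintro _ ⟨a, ha, b, hb, rfl⟩
      obtain ⟨r, hr⟩ := alt_TT e ha
      obtain ⟨s, hs⟩ := alt_TT e hb
      exact ⟨r * s, by rw [extOp_xp, hr, hs, xp_smul_left, xp_smul_right, smul_smul]⟩
    · exact ⟨0, by rw [map_zero, zero_smul]⟩
    · rintro a b _ _ ⟨r, hr⟩ ⟨s, hs⟩
      exact ⟨r + s, by rw [map_add, hr, hs, add_smul]⟩
    · rintro t a _ ⟨r, hr⟩
      exact ⟨t * r, by rw [map_smul, hr, mul_smul]⟩
  -- the pairing
  have h2 : W.tr _ (w₂ * xp W wf wf) =
      ((n + 1).factorial : W.K) * ((n + 1).factorial : W.K) * W.tr _ (w₁ * xp W wf wf) := by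
    rw [hw₂]
    clear_value w₁
    refine Submodule.span_induction (p := fun w₁ _ =>
      W.tr _ (extOp W (alt W X n i) (alt W X n i) w₁ * xp W wf wf) =
      ((n + 1).factorial : W.K) * ((n + 1).factorial : W.K) * W.tr _ (w₁ * xp W wf wf))
      ?_ ?_ ?_ ?_ hw₁b
    · rintro _ ⟨a, ha, b, hb, rfl⟩
      obtain ⟨s, hs⟩ := alt_TT e hb
      have hbg : alt W X n i b ∈ W.gr (pw X n) ((n + 1) * i) := by
        rw [hs]
        exact Submodule.smul_mem _ _ hweg
      rw [extOp_xp, xp_mul _ _ _ _ (PH.of hbg) (PH.of hwfg),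
        xp_mul _ _ _ _ (PH.of (hTle b hb)) (PH.of hwfg), map_smul, map_smul, tr_xp, tr_xp,
        tr_alt hfg ha, tr_alt hfg hb, smul_eq_mul, smul_eq_mul]
      ring
    · rw [map_zero, zero_mul, map_zero, mul_zero]
    · intro a b _ _ ha hb
      rw [map_add, add_mul, map_add, ha, hb, add_mul, map_add, mul_add]
    · intro t a _ ha
      rw [map_smul, smul_mul_assoc, map_smul, ha, smul_mul_assoc, map_smul, smul_eq_mul,
        smul_eq_mul]
      ring
  have hdimV : (n + 1) * i + (n + 1) * i + ((n + 1) * (2 * (X.dim - i) + i) +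
      (n + 1) * (2 * (X.dim - i) + i)) = 2 * ((pw X n).prod (pw X n)).dim := by
    rw [dim_prod]
    have h5 : ∀ m : ℕ, (pw X m).dim = (m + 1) * X.dim := by
      intro m
      induction m with
      | zero => rw [zero_add, one_mul]; rfl
      | succ m ih =>
        have h : (pw X (m + 1)).dim = (pw X m).dim + X.dim := dim_prod _ _
        rw [h, ih]
        ring
    rw [h5]
    obtain ⟨c, hc⟩ : ∃ c, X.dim = c + i := ⟨X.dim - i, by omega⟩
    rw [hc, Nat.add_sub_cancel]
    ring
  have h3 : W.tr _ (w₁ * xp W wf wf) = W.tr _ (w₀ * xp W wf wf) :=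
    tr_proj hdimV w₀ (xp_gr hwfg hwfg)
  have h4 : W.tr _ (w₀ * xp W wf wf) = W.tr _ (w * xp W wf wf) := by
    have h5 := Adj.extOp (EE_adj hE hE' hadj n) (EE_adj hE hE' hadj n) (EE_ev hE' n)
      (EE_ev hE n) w (xp W wf wf)
    rw [hw₀, h5, extOp_xp, EE_wedge n fun j => hfix _ (e j).2]
  obtain ⟨r, hr⟩ := h1
  have hr0 : r ≠ 0 := by
    rintro rfl
    rw [hr, zero_smul, zero_mul, map_zero, h3, h4] at h2
    have h6 : ((n + 1).factorial : W.K) ≠ 0 := by
      exact_mod_cast (n + 1).factorial_ne_zero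
    exact h0 ((mul_eq_zero.1 h2.symm).resolve_left (mul_ne_zero h6 h6))
  have h7 := Submodule.smul_mem _ r⁻¹ hw₂m
  rw [hr, inv_smul_smul₀ hr0] at h7
  exact h7

/-- **An algebraic class with a nonzero pairing with the top determinant class makes the
determinant class algebraic.** -/
theorem detSq_of_pairing {D : X.Cycles} (hD : X.IsCyc 1 D) (hHL : HardLefschetz W X D) {i n : ℕ}
    (hi : i ≤ X.dim) (hG : ∀ j < i, Good W X D j) (e : Basis (Fin (n + 1)) W.K (prim W X D i))
    {w : W.H (dblPw X n)} (hw : w ∈ algSpan W (dblPw X n))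
    (h0 : W.tr _ (w * detSq W n (fun j => W.cl X D ^ (X.dim - i) * (e j : W.H X))) ≠ 0) :
    detSq W n (fun j => (e j : W.H X)) ∈ algSpan W (dblPw X n) :=
  detSq_of_pairing' hD hHL hi hG e hw h0

end Pool.Agent.Q55.Det
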