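import Mathlib

/-!
# Products of families which commute up to a sign
-/

namespace Pool.Agent.Q55.Det

open Equiv

variable {K A : Type*} [Field K] [Ring A] [Algebra K A]

/-- the sign `1` or `sign σ` -/
def chi (i : ℕ) {m : ℕ} (σ : Perm (Fin m)) : ℤ := ((Perm.sign σ : ℤ)) ^ i

lemma chi_one (i : ℕ) {m : ℕ} : chi i (1 : Perm (Fin m)) = 1 := by simp [chi]

lemma chi_mul (i : ℕ) {m : ℕ} (σ τ : Perm (Fin m)) : chi i (σ * τ) = chi i σ * chi i τ := by
  simp [chi, mul_pow]

lemma ofFn_swap {m : ℕ} : ∀ (k : Fin m) (y : Fin (m + 1) → A) (ε : K)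
    (_ : y k.castSucc * y k.succ = ε • (y k.succ * y k.castSucc)),
    (List.ofFn y).prod = ε • (List.ofFn (y ∘ Equiv.swap k.castSucc k.succ)).prod := by
  induction m with
  | zero => intro k; exact k.elim0
  | succ m ih =>
    intro k y ε h
    refine Fin.cases ?_ (fun k' => ?_) k (motive := fun k => ∀ (_ : y k.castSucc * y k.succ =
      ε • (y k.succ * y k.castSucc)), (List.ofFn y).prod =
        ε • (List.ofFn (y ∘ Equiv.swap k.castSucc k.succ)).prod) h
    · intro h
      rw [List.ofFn_succ, List.ofFn_succ, List.prod_cons, List.prod_cons, List.ofFn_succ,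
        List.ofFn_succ, List.prod_cons, List.prod_cons, ← mul_assoc, ← mul_assoc]
      have h1 : y 0 * y (Fin.succ 0) = ε • (y (Fin.succ 0) * y 0) := h
      rw [h1, smul_mul_assoc]
      have e0 : (y ∘ Equiv.swap (Fin.castSucc (0 : Fin (m + 1))) (Fin.succ 0)) 0 = y (Fin.succ 0) :=
        congrArg y (Equiv.swap_apply_left (0 : Fin (m + 2)) (Fin.succ 0))
      have e1 : (y ∘ Equiv.swap (Fin.castSucc (0 : Fin (m + 1))) (Fin.succ 0)) (Fin.succ 0) = y 0 :=
        congrArg y (Equiv.swap_apply_right (0 : Fin (m + 2)) (Fin.succ 0))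
      have e2 : (fun j : Fin m => (y ∘ Equiv.swap (Fin.castSucc (0 : Fin (m + 1))) (Fin.succ 0))
          (Fin.succ (Fin.succ j))) = fun j => y (Fin.succ (Fin.succ j)) := by
        funext j
        exact congrArg y (Equiv.swap_apply_of_ne_of_ne (Fin.succ_ne_zero _)
          fun h2 => Fin.succ_ne_zero _ (Fin.succ_injective _ h2))
      rw [e0, e1, e2]
    · intro h
      have h2 := ih k' (fun j => y j.succ) ε h
      have e0 : (y ∘ Equiv.swap (Fin.succ k').castSucc (Fin.succ k').succ) 0 = y 0 := by
        refine congrArg y (Equiv.swap_apply_of_ne_of_ne (fun h3 => ?_) (Fin.succ_ne_zero _).symm)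
        have := congrArg Fin.val h3
        simp at this
      have e1 : (fun j : Fin (m + 1) => (y ∘ Equiv.swap (Fin.succ k').castSucc (Fin.succ k').succ)
          (Fin.succ j)) = (fun j => y j.succ) ∘ Equiv.swap k'.castSucc k'.succ := by
        funext j
        rw [Function.comp_apply, Function.comp_apply]
        congr 1
        have h4 : (Fin.succ k').castSucc = (k'.castSucc).succ := rfl
        rw [h4]
        by_cases h5 : j = k'.castSucc
        · subst h5; rw [Equiv.swap_apply_left, Equiv.swap_apply_left]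
        · by_cases h6 : j = k'.succ
          · subst h6; rw [Equiv.swap_apply_right, Equiv.swap_apply_right]
          · rw [Equiv.swap_apply_of_ne_of_ne h5 h6, Equiv.swap_apply_of_ne_of_ne]
            · intro h7; exact h5 (Fin.succ_injective _ h7)
            · intro h7; exact h6 (Fin.succ_injective _ h7)
      conv_lhs => rw [List.ofFn_succ, List.prod_cons, h2]
      conv_rhs => rw [List.ofFn_succ, List.prod_cons, e0, e1]
      rw [mul_smul_comm]

/-- **Reordering a product** of pairwise commuting (`i` even) or anticommuting (`i` odd)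
elements. -/
theorem ofFn_perm (i : ℕ) {m : ℕ} (σ : Perm (Fin m)) (y : Fin m → A)
    (h : ∀ j l, j ≠ l → y j * y l = ((-1 : K) ^ i) • (y l * y j)) :
    (List.ofFn (y ∘ σ)).prod = (chi i σ : K) • (List.ofFn y).prod := by
  cases m with
  | zero => 
    have : σ = 1 := Subsingleton.elim _ _
    rw [this, chi_one]
    simp
  | succ m =>
    have h0 : σ ∈ Submonoid.closure (Set.range fun i : Fin m => Equiv.swap i.castSucc i.succ) := by
      rw [Equiv.Perm.mclosure_swap_castSucc_succ]; trivial
    induction h0 using Submonoid.closure_induction generalizing y with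
    | mem σ hσ =>
      obtain ⟨k, rfl⟩ := hσ
      have hne : k.castSucc ≠ k.succ := (Fin.castSucc_lt_succ).ne
      have h1 := ofFn_swap (K := K) k y _ (h _ _ hne)
      rw [h1, smul_smul]
      have h2 : (chi i (Equiv.swap k.castSucc k.succ) : K) * (-1) ^ i = 1 := by
        rw [chi, Perm.sign_swap hne]
        push_cast
        rw [← mul_pow]
        norm_num
      rw [h2, one_smul]
    | one => simp [chi_one]
    | mul σ τ _ _ hσ hτ =>
      have h1 : (y ∘ (σ * τ : Perm _)) = (y ∘ σ) ∘ τ := rfl
      rw [h1, hτ (y ∘ σ) (fun j l hjl => h _ _ fun h' => hjl (σ.injective h')), hσ y h, smul_smul,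
        chi_mul]
      push_cast
      rw [mul_comm]

end Pool.Agent.Q55.Det
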