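import Pool.Agent.Q55.Det.PrimF

/-!
# The induction step
-/

open CategoryTheory AlgebraicGeometry

universe u v

namespace Pool.Agent.Q55.Det

open Module
open Pool.Agent.H914 Pool.Agent.H914.VarClass Pool.Agent.H914.VarClass.Obj
  Pool.Agent.H914.WeilCohomology Pool.Agent.Y133.Half Pool.Agent.H281R3.HT Pool.Agent.W458.MF
  Pool.Agent.W536.RR

variable {k : Type u} [Field k] {𝒱 : VarClass k} {ops : CycleOps 𝒱}
  {W : WeilCohomology.{u, v} ops} {X Y Z : 𝒱.Obj}

lemma algSpan_gr {Y : 𝒱.Obj} {γ : W.H Y} (hγ : γ ∈ algSpan W Y) {p : ℕ}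
    (hp : γ ∈ W.gr Y (2 * p)) : γ ∈ spanCycles W Y (p : ℤ) := by
  have key : ∀ γ ∈ algSpan W Y, H914.proj (W.isInternal Y) (2 * p) γ ∈
      spanCycles W Y (p : ℤ) := by
    intro γ hγ
    refine algSpan_induction (p := fun γ => H914.proj (W.isInternal Y) (2 * p) γ ∈
      spanCycles W Y (p : ℤ)) ?_ ?_ ?_ ?_ hγ
    · rw [map_zero]; exact Submodule.zero_mem _
    · intro a b ha hb; rw [map_add]; exact Submodule.add_mem _ ha hb
    · intro t a ha; rw [map_smul]; exact Submodule.smul_mem _ _ ha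
    · intro j z hz
      by_cases hj : j = p
      · subst hj
        rw [proj_same _ (W.cl_mem hz)]
        exact Submodule.subset_span ⟨j, rfl, z, hz, rfl⟩
      · rw [proj_ne _ (W.cl_mem hz) (by omega)]
        exact Submodule.zero_mem _
  have h1 := key γ hγ
  rwa [proj_same _ hp] at h1

lemma span_le_alg {Y : 𝒱.Obj} {q : ℤ} {γ : W.H Y} (h : γ ∈ spanCycles W Y q) :
    γ ∈ algSpan W Y := by
  refine Submodule.span_mono ?_ h
  rintro _ ⟨p, _, z, hz, rfl⟩
  exact Set.mem_iUnion.2 ⟨p, z, hz, rfl⟩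

/-- The graded algebra of the operators given by algebraic correspondences. -/
abbrev KR (W : WeilCohomology.{u, v} ops) (X : 𝒱.Obj) (d : ℤ) (y : Module.End W.K (W.H X)) :
    Prop := y ∈ KS (ROp W X) d

lemma KR.opAlg (W : WeilCohomology.{u, v} ops) (X : 𝒱.Obj) : OpAlg (W.gr X) (KR W X) :=
  rop_opAlg.kspan

lemma KR.alg {d : ℤ} {y : Module.End W.K (W.H X)} (h : KR W X d y) :
    ∃ γ ∈ (algSys W).C (X.prod X), W.corr γ = y := by
  obtain ⟨γ, hγ, rfl⟩ := mem_KOp_iff.1 (mem_KS_iff.1 h)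
  exact ⟨γ, span_le_alg hγ, rfl⟩

lemma KR.of {γ : W.H (X.prod X)} (hγ : γ ∈ (algSys W).C (X.prod X)) {p : ℕ}
    (hp : γ ∈ W.gr (X.prod X) (2 * p)) {d : ℤ} (hd : (p : ℤ) = X.dim + d) :
    KR W X d (W.corr γ) := by
  refine mem_KS_iff.2 (mem_KOp_iff.2 ⟨γ, ?_, rfl⟩)
  rw [← hd]
  exact algSpan_gr hγ hp

/-- The inverse of the power of the Lefschetz operator in degree `j` is algebraic. -/
abbrev Good (W : WeilCohomology.{u, v} ops) (X : 𝒱.Obj) (D : X.Cycles) (j : ℕ) : Prop :=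
  HasInv (KR W X) (W.gr X) X.dim (LinearMap.mulLeft W.K (W.cl X D)) j

lemma KR.L {D : X.Cycles} (hD : X.IsCyc 1 D) : KR W X 1 (LinearMap.mulLeft W.K (W.cl X D)) :=
  Submodule.subset_span (rop_mulLeft hD)

/-- **The top determinant classes are algebraic** if the inverses in lower degrees are. -/
theorem det_top {D : X.Cycles} (hD : X.IsCyc 1 D) (hHL : HardLefschetz W X D) {i n : ℕ}
    (hi : i ≤ X.dim) (hG : ∀ j < i, Good W X D j) (e : Basis (Fin (n + 1)) W.K (prim W X D i)) :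
    detSq W n (fun j => W.cl X D ^ (X.dim - i) * (e j : W.H X)) ∈ algSpan W (dblPw X n) := by
  obtain ⟨Ψ, hΨ, h1, h2, h3⟩ := exists_psi (KR.opAlg W X) (W.isInternal X) W_hbd (KR.L hD) hHL hi hG
  obtain ⟨γ, hγ, rfl⟩ := hΨ.alg
  refine detSq_mem_of_psi (algSys W) hD hHL hi e hγ ?_ h2 h3
  intro a ha
  obtain ⟨ha1, ha2⟩ := mem_prim.1 ha
  rw [h1 a ha1 (by rw [mulLeft_pow]; exact ha2), mulLeft_pow]

lemma cl_alg {Y : 𝒱.Obj} {p : ℕ} {z : Y.Cycles} (hz : Y.IsCyc p z) : W.cl Y z ∈ algSpan W Y :=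
  Submodule.subset_span (Set.mem_iUnion.2 ⟨p, z, hz, rfl⟩)

lemma pow_alg {D : X.Cycles} (hD : X.IsCyc 1 D) (m : ℕ) : W.cl X D ^ m ∈ (algSys W).C X := by
  induction m with
  | zero => rw [pow_zero]; exact (algSys W).one X
  | succ m ih => rw [pow_succ]; exact (algSys W).mul ih (cl_alg hD)

/-- **The induction step**: the determinant class gives the inverse. -/
theorem good_step {D : X.Cycles} (hD : X.IsCyc 1 D) (hHL : HardLefschetz W X D) {i : ℕ}
    (hi : i ≤ X.dim) (hG : ∀ j < i, Good W X D j)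
    (hdet : ∀ (n : ℕ) (e : Basis (Fin (n + 1)) W.K (prim W X D i)),
      detSq W n (fun j => (e j : W.H X)) ∈ algSpan W (dblPw X n)) : Good W X D i := by
  have hLh := mulLeft_isHom (W := W) hD
  have hop := KR.opAlg W X
  -- the operator on the primitive part
  have hν : ∃ ν, KR W X (-((X.dim - i : ℕ) : ℤ)) ν ∧
      (∀ a ∈ prim W X D i, ν (W.cl X D ^ (X.dim - i) * a) ∈ prim W X D i ∧
        (ν (W.cl X D ^ (X.dim - i) * a) = 0 → a = 0)) ∧
      (2 ≤ i → ∀ b ∈ W.gr X (i - 2), ν (W.cl X D ^ (X.dim - i + 1) * b) = 0) := by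
    rcases Nat.eq_zero_or_pos (finrank W.K (prim W X D i)) with h0 | hpos
    · have hbot : ∀ a ∈ prim W X D i, a = 0 := by
        intro a ha
        have h1 := finrank_zero_iff_forall_zero.1 h0 ⟨a, ha⟩
        exact congrArg Subtype.val h1
      refine ⟨0, hop.zero _, fun a ha => ⟨?_, fun _ => hbot a ha⟩, fun _ b _ => rfl⟩
      rw [LinearMap.zero_apply]
      exact Submodule.zero_mem _
    · obtain ⟨n, hn⟩ : ∃ n, finrank W.K (prim W X D i) = n + 1 :=
        ⟨finrank W.K (prim W X D i) - 1, by omega⟩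
      let e : Basis (Fin (n + 1)) W.K (prim W X D i) := finBasisOfFinrankEq W.K _ hn
      have he : ∀ j, (e j : W.H X) ∈ W.gr X i := fun j => (mem_prim.1 (e j).2).1
      obtain ⟨d, s, hd, hs, hds⟩ := contract (algSys W) he (pow_gr hD (X.dim - i))
        (pow_alg hD _) (hdet n e)
      obtain ⟨h1, h2⟩ := corr_contract he (pow_gr hD (X.dim - i)) (gram_det hD hHL hi e) hs hds
      choose κ hκ h1 using h1
      have hdeg : d ∈ W.gr (X.prod X) (2 * i) := by
        rw [hds, two_mul]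
        exact Submodule.smul_mem _ _ (Submodule.sum_mem _ fun σ _ => Submodule.sum_mem _
          fun τ _ => Submodule.smul_mem _ _ (xp_gr (he _) (he _)))
      refine ⟨W.corr d, KR.of hd hdeg (by omega), fun a ha => ?_, fun h2i b hb => ?_⟩
      · obtain ⟨t, ht⟩ : ∃ t : Fin (n + 1) → W.K, a = ∑ j, t j • (e j : W.H X) := by
          refine ⟨fun j => e.repr ⟨a, ha⟩ j, ?_⟩
          have h4 := congrArg (Subtype.val) (e.sum_repr ⟨a, ha⟩)
          refine h4.symm.trans ?_
          rw [AddSubmonoidClass.coe_finsetSum]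
          rfl
        have h5 : W.corr d (W.cl X D ^ (X.dim - i) * a) =
            ∑ j, (t j * κ j) • (e j : W.H X) := by
          rw [ht, Finset.mul_sum, map_sum]
          refine Finset.sum_congr rfl fun j _ => ?_
          rw [mul_smul_comm, map_smul, h1, smul_smul]
        have h6 : ∑ j, (t j * κ j) • (e j : W.H X) =
            ((∑ j, (t j * κ j) • e j : prim W X D i) : W.H X) := by
          rw [AddSubmonoidClass.coe_finsetSum]
          rfl
        rw [h5, h6]
        refine ⟨(∑ j, (t j * κ j) • e j : prim W X D i).2, fun h0 => ?_⟩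
        have h7 : (∑ j, (t j * κ j) • e j : prim W X D i) = 0 := Subtype.ext h0
        have h8 := Fintype.linearIndependent_iff.1 e.linearIndependent _ h7
        rw [ht]
        refine Finset.sum_eq_zero fun j _ => ?_
        rw [(mul_eq_zero.1 (h8 j)).resolve_right (hκ j), zero_smul]
      · refine h2 _ _ (W.mul_mem (pow_gr hD _) hb) fun j => ?_
        rw [← mul_assoc, ← PH.even_comm (pow_even (cl_even hD) _), (mem_prim.1 (e j).2).2,
          zero_mul, map_zero]
  obtain ⟨ν, hνR, hν1, hν3⟩ := hν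
  obtain ⟨ν', hν'R, hν'⟩ := exists_nu hop W_hbd (KR.L hD) hHL hi hG hνR
    (by
      intro a ha hp
      rw [mulLeft_pow] at hp
      rw [mulLeft_pow, mulLeft_pow]
      exact (mem_prim.1 (hν1 a (mem_prim.2 ⟨ha, hp⟩)).1).2)
    (by
      intro a ha hp
      rw [mulLeft_pow] at hp
      rw [mulLeft_pow]
      exact (hν1 a (mem_prim.2 ⟨ha, hp⟩)).2)
    (by
      intro h2i b hb
      rw [mulLeft_pow]
      exact hν3 h2i b hb)
  obtain ⟨θ, hθR, hθ⟩ := rop_opAlg.exists_theta_of_inj (KR.L hD) hHL (c := X.dim - i) (by omega)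
    hν'R hν'
  rw [show X.dim - (X.dim - i) = i by omega] at hθ
  exact ⟨θ, hθR, hθ⟩

/-- The degree `dim X`. -/
lemma good_dim (W : WeilCohomology.{u, v} ops) (X : 𝒱.Obj) (D : X.Cycles) :
    Good W X D X.dim := by
  refine ⟨1, ?_, fun a _ => ?_⟩
  · rw [Nat.sub_self]
    exact (KR.opAlg W X).one
  · rw [Nat.sub_self, pow_zero]
    rfl

/-- The Lefschetz standard conjecture and the inverses of the powers of the Lefschetz operator. -/
theorem lefschetzB_iff_good {D : X.Cycles} (hD : X.IsCyc 1 D) (hHL : HardLefschetz W X D) :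
    LefschetzB W X D ↔ ∀ i ≤ X.dim, Good W X D i := by
  constructor
  · intro hB i hi
    obtain ⟨ν, hν, hinj⟩ := inj_of_lefschetzB hD hHL hB (X.dim - i) (by omega)
    obtain ⟨θ, hθR, hθ⟩ := rop_opAlg.exists_theta_of_inj (KR.L hD) hHL (c := X.dim - i) (by omega)
      (mem_KS_iff.2 hν) hinj
    rw [show X.dim - (X.dim - i) = i by omega] at hθ
    exact ⟨θ, hθR, hθ⟩
  · intro h
    refine lefschetzB_of_inj hD hHL fun c hc => ?_
    obtain ⟨θ, hθR, hθ⟩ := h (X.dim - c) (by omega)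
    rw [show X.dim - (X.dim - c) = c by omega] at hθR hθ
    refine ⟨θ, mem_KS_iff.1 hθR, fun x hx h0 => ?_⟩
    obtain ⟨y, hy, rfl⟩ := (hHL (X.dim - c) (by omega)).2 x
      (by rw [show 2 * X.dim - (X.dim - c) = X.dim + c by omega]; exact hx)
    rw [show X.dim - (X.dim - c) = c by omega] at h0 ⊢
    rw [hθ y hy] at h0
    rw [h0, map_zero]

end Pool.Agent.Q55.Det
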