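import Pool.Agent.Q55.Det.Defs
import Pool.Agent.Q55.Det.SgnP
import Pool.Agent.Y133.Half.Growth
import Pool.Agent.Y133.Half.TateSys

/-!
# External products and determinants of classes on powers
-/

open CategoryTheory AlgebraicGeometry

universe u v

namespace Pool.Agent.Q55.Det

open Module
open Pool.Agent.H914 Pool.Agent.H914.VarClass Pool.Agent.H914.VarClass.Obj
  Pool.Agent.H914.WeilCohomology Pool.Agent.Y133.Half

variable {k : Type u} [Field k] {𝒱 : VarClass k} {ops : CycleOps 𝒱}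
  {W : WeilCohomology.{u, v} ops} {X Y Z : 𝒱.Obj}

lemma tens_zero (x : Fin 1 → W.H X) : tens W 0 x = x 0 := rfl

lemma tens_succ (n : ℕ) (x : Fin (n + 2) → W.H X) :
    tens W (n + 1) x = xp W (tens W n fun j => x j.castSucc) (x (Fin.last (n + 1))) := rfl

lemma xp_gr {a b : ℕ} {x : W.H X} {y : W.H Y} (hx : x ∈ W.gr X a) (hy : y ∈ W.gr Y b) :
    xp W x y ∈ W.gr (X.prod Y) (a + b) := W.mul_mem (W.map_mem _ hx) (W.map_mem _ hy)

lemma tens_gr {a : ℕ} : ∀ {n : ℕ} {x : Fin (n + 1) → W.H X}, (∀ j, x j ∈ W.gr X a) →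
    tens W n x ∈ W.gr (pw X n) ((n + 1) * a)
  | 0, x, hx => by rw [tens_zero, zero_add, one_mul]; exact hx 0
  | n + 1, x, hx => by
    rw [tens_succ, show (n + 1 + 1) * a = (n + 1) * a + a by ring]
    exact xp_gr (tens_gr fun j => hx _) (hx _)

lemma tens_eq (n : ℕ) (x : Fin (n + 1) → W.H X) :
    tens W n x = (List.ofFn fun j => W.map (prj X n j) (x j)).prod := by
  induction n with
  | zero =>
    rw [tens_zero, List.ofFn_succ, List.ofFn_zero, List.prod_singleton]
    exact (W.map_id _ _).symm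
  | succ n ih =>
    conv_rhs => rw [List.ofFn_succ', List.prod_concat, prj_last]
    rw [tens_succ, xp, ih, map_list_prod, List.map_ofFn]
    congr 3
    funext i
    rw [Function.comp_apply, prj_castSucc, W.map_comp]
    rfl

lemma sq_parity (a : ℕ) : (-1 : W.K) ^ (a * a) = (-1 : W.K) ^ a := by
  apply neg_pow_congr
  rcases Nat.even_or_odd a with h | h
  · have h1 : a % 2 = 0 := Nat.even_iff.1 h
    rw [Nat.mul_mod, h1]
  · have h1 : a % 2 = 1 := Nat.odd_iff.1 h
    rw [Nat.mul_mod, h1]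

/-- The action of a permutation of the factors. -/
lemma map_tau {a n : ℕ} (σ : Equiv.Perm (Fin (n + 1))) {x : Fin (n + 1) → W.H X}
    (hx : ∀ j, x j ∈ W.gr X a) :
    W.map (tau X n σ) (tens W n (x ∘ σ)) = (chi a σ : W.K) • tens W n x := by
  rw [tens_eq, tens_eq, map_list_prod, List.map_ofFn]
  have h1 : (W.map (tau X n σ)) ∘ (fun i => W.map (prj X n i) ((x ∘ σ) i)) =
      (fun i => W.map (prj X n i) (x i)) ∘ σ := by
    funext i
    rw [Function.comp_apply, Function.comp_apply, ← W.map_comp, tau_prj]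
    rfl
  rw [h1]
  refine ofFn_perm a σ _ fun j l _ => ?_
  rw [W.comm (W.map_mem _ (hx j)) (W.map_mem _ (hx l)), sq_parity]

/-- The pairing of two external products. -/
lemma pair_tens (X : 𝒱.Obj) (W : WeilCohomology.{u, v} ops) (a b : ℕ) : ∀ n : ℕ,
    ∃ s : W.K, s ≠ 0 ∧ ∀ x y : Fin (n + 1) → W.H X, (∀ j, x j ∈ W.gr X a) →
      (∀ j, y j ∈ W.gr X b) →
      W.tr _ (tens W n x * tens W n y) = s * ∏ j, W.tr X (x j * y j)
  | 0 => ⟨1, one_ne_zero, fun x y _ _ => by
    rw [tens_zero, tens_zero, one_mul, Fin.prod_univ_succ, Fin.prod_univ_zero, mul_one]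
    rfl⟩
  | n + 1 => by
    obtain ⟨s, hs, h⟩ := pair_tens X W a b n
    refine ⟨(-1) ^ (a * ((n + 1) * b)) * s,
      mul_ne_zero (pow_ne_zero _ (neg_ne_zero.2 one_ne_zero)) hs, fun x y hx hy => ?_⟩
    have h1 : W.tr (pw X (n + 1)) (tens W (n + 1) x * tens W (n + 1) y) =
        W.tr ((pw X n).prod X) (xp W (tens W n fun j => x j.castSucc) (x (Fin.last (n + 1))) *
          xp W (tens W n fun j => y j.castSucc) (y (Fin.last (n + 1)))) := rfl
    rw [h1, xp_mul _ _ _ _ (PH.of (hx _)) (PH.of (tens_gr fun j => hy _)),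
      map_smul, smul_eq_mul, Fin.prod_univ_castSucc, tr_xp, h _ _ (fun j => hx _) (fun j => hy _)]
    ring

/-- Multiplication with a class of even degree. -/
lemma tens_mul {q : ℕ} {u : W.H X} (hu : u ∈ W.gr X (2 * q)) : ∀ (n : ℕ) (x : Fin (n + 1) → W.H X),
    tens W n (fun _ => u) * tens W n x = tens W n fun j => u * x j
  | 0, _ => rfl
  | n + 1, x => by
    have hu' : u ∈ PH W X 0 := PH.of' (by omega) hu
    have h1 : xp W (tens W n fun _ => u) u * xp W (tens W n fun j => x j.castSucc)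
        (x (Fin.last (n + 1))) = xp W ((tens W n fun _ => u) * tens W n fun j => x j.castSucc)
          (u * x (Fin.last (n + 1))) := by
      rw [xp, xp, xp, mul_assoc, ← mul_assoc (W.map (snd _ X) u), PH.even_comm (PH.map _ hu'),
        map_mul (W.map (fst _ X)), map_mul (W.map (snd _ X))]
      simp only [mul_assoc]
    rw [tens_mul hu n] at h1
    exact h1

lemma tens_alg (S : Sys W) : ∀ (n : ℕ) {x : Fin (n + 1) → W.H X}, (∀ j, x j ∈ S.C X) →
    tens W n x ∈ S.C (pw X n)
  | 0, _, hx => hx 0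
  | n + 1, _, hx => S.mul (S.map _ (tens_alg S n fun _ => hx _)) (S.map _ (hx _))

/-- The external product as a multilinear map. -/
noncomputable def tensM (W : WeilCohomology.{u, v} ops) (X : 𝒱.Obj) (n : ℕ) :
    MultilinearMap W.K (fun _ : Fin (n + 1) => W.H X) (W.H (pw X n)) :=
  (MultilinearMap.mkPiAlgebraFin W.K (n + 1) (W.H (pw X n))).compLinearMap
    fun j => (W.map (prj X n j)).toLinearMap

lemma tensM_apply (n : ℕ) (x : Fin (n + 1) → W.H X) : tensM W X n x = tens W n x := by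
  rw [tens_eq, tensM, MultilinearMap.compLinearMap_apply, MultilinearMap.mkPiAlgebraFin_apply]
  rfl

/-- The determinant as an alternating map. -/
noncomputable def wedgeA (W : WeilCohomology.{u, v} ops) (X : 𝒱.Obj) (n : ℕ) :
    W.H X [⋀^Fin (n + 1)]→ₗ[W.K] W.H (pw X n) :=
  MultilinearMap.alternatization (tensM W X n)

lemma wedgeA_apply (n : ℕ) (x : Fin (n + 1) → W.H X) : wedgeA W X n x = wedge W n x := by
  rw [wedgeA, MultilinearMap.alternatization_apply, wedge]
  refine Finset.sum_congr rfl fun σ _ => ?_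
  rw [MultilinearMap.domDomCongr_apply, tensM_apply, Units.smul_def, ← Int.cast_smul_eq_zsmul W.K]
  rfl

lemma wedge_gr {a n : ℕ} {x : Fin (n + 1) → W.H X} (hx : ∀ j, x j ∈ W.gr X a) :
    wedge W n x ∈ W.gr (pw X n) ((n + 1) * a) :=
  Submodule.sum_mem _ fun _ _ => Submodule.smul_mem _ _ (tens_gr fun _ => hx _)

/-- A change of basis multiplies the determinant by a nonzero scalar. -/
lemma wedge_basis {n : ℕ} {U : Submodule W.K (W.H X)} (e e' : Basis (Fin (n + 1)) W.K U) :
    ∃ t : W.K, t ≠ 0 ∧ wedge W n (fun j => (e' j : W.H X)) =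
      t • wedge W n (fun j => (e j : W.H X)) := by
  refine ⟨e.det e', (e.isUnit_det e').ne_zero, ?_⟩
  let g : U [⋀^Fin (n + 1)]→ₗ[W.K] W.H (pw X n) := (wedgeA W X n).compLinearMap U.subtype
  have h : g = (LinearMap.toSpanSingleton W.K _ (g e)).compAlternatingMap e.det := by
    apply e.ext_alternating
    intro v hv
    obtain ⟨σ, rfl⟩ : ∃ σ : Equiv.Perm (Fin (n + 1)), v = σ :=
      ⟨Equiv.ofBijective v (Finite.injective_iff_bijective.1 hv), rfl⟩
    have h1 : (fun i => e (σ i)) = (e : Fin (n + 1) → U) ∘ σ := rfl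
    rw [h1, AlternatingMap.map_perm, LinearMap.compAlternatingMap_apply, AlternatingMap.map_perm,
      e.det_self, LinearMap.toSpanSingleton_apply, Units.smul_def, Units.smul_def,
      ← Int.cast_smul_eq_zsmul W.K, ← Int.cast_smul_eq_zsmul W.K, smul_eq_mul, mul_one]
  have h2 : ∀ x : Fin (n + 1) → U, g x = wedge W n fun j => (x j : W.H X) := fun x => by
    rw [← wedgeA_apply]
    rfl
  rw [← h2, ← h2]
  conv_lhs => rw [h]
  rfl

end Pool.Agent.Q55.Det
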